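import Pool.Agent.LibSC35.M1

/-! ROW V1 : the variances of the mollified functions tend to (at least) the variance of `f`. 45 min.
Plan. `ENNReal.ofReal (vg (aR b f R)) = ∫⁻ ξ, ofReal (|ξ| ‖ftF f ξ‖² ‖b (ξ / R)‖² * 2)` (`vg a = 4 ∫_{s>0} s ‖a s‖²`, the
integrand of `aR` is even in `ξ` because `‖aR (-ξ)‖ = ‖aR ξ‖`, `(amp_aR ..).herm`; `integral_comp_abs` as in `varGOE_eq`,
LibGWa/U8.lean; integrable: `aR` is continuous with compact support, `ofReal_integral_eq_lintegral_ofReal`). As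
`R → ∞`, `b (ξ / R) → b 0`, `2 ‖b 0‖² = 1 / (2 π²)`; Fatou (`lintegral_liminf_le`) for `R = n + 1`:
`vF f ≤ liminf_n ofReal (vg (aR b f (n + 1)))`, so `ofReal c < ofReal (vg (aR b f (n + 1)))` for some `n`
(`Filter.eventually_lt_of_lt_liminf`). -/

open MeasureTheory Set Filter Topology FG33
open scoped ContDiff

namespace SC35

open GWin

private theorem V1_vg {a : ℝ → ℂ} (ha : IsAmp a) :
    ENNReal.ofReal (vg a) = ∫⁻ ξ, ENNReal.ofReal (2 * (|ξ| * ‖a ξ‖ ^ 2)) := by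
  have h1 : ∀ ξ : ℝ, 2 * (|ξ| * ‖a ξ‖ ^ 2) = (fun y : ℝ => 2 * (y * ‖a y‖ ^ 2)) |ξ| := by
    intro ξ
    have h2 : ‖a |ξ|‖ = ‖a ξ‖ := by
      rcases le_total 0 ξ with h | h
      · rw [abs_of_nonneg h]
      · rw [abs_of_nonpos h, ha.herm, Complex.norm_conj]
    dsimp only
    rw [h2]
  have h3 : ∫ ξ, 2 * (|ξ| * ‖a ξ‖ ^ 2) = vg a := by
    simp_rw [h1]
    rw [integral_comp_abs (f := fun y : ℝ => 2 * (y * ‖a y‖ ^ 2)), integral_const_mul]
    unfold vg
    ring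
  have hc : Continuous a := ha.smooth.continuous
  rw [← h3, ofReal_integral_eq_lintegral_ofReal]
  · refine Continuous.integrable_of_hasCompactSupport (by fun_prop) ?_
    refine ha.supp.mono ?_
    intro ξ hξ
    rw [Function.mem_support] at hξ ⊢
    intro h
    exact hξ (by rw [h]; simp)
  · exact Eventually.of_forall fun ξ => by positivity

theorem vg_aR {b : ℝ → ℂ} (hb : Ker b) {f : ℝ → ℝ} (hf : Rd f) {c : ℝ}
    (hc : ENNReal.ofReal c < vF f) : ∃ R : ℝ, 1 ≤ R ∧ c < vg (aR b f R) := by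
  have hR : ∀ n : ℕ, (0 : ℝ) < (n : ℝ) + 1 := fun n => by positivity
  have hbc : Continuous b := hb.amp.smooth.continuous
  have h1 : vF f ≤ liminf (fun n : ℕ => ENNReal.ofReal (vg (aR b f ((n : ℝ) + 1)))) atTop := by
    have h2 : ∀ n : ℕ, ENNReal.ofReal (vg (aR b f ((n : ℝ) + 1))) =
        ∫⁻ ξ, ENNReal.ofReal (2 * (|ξ| * ‖aR b f ((n : ℝ) + 1) ξ‖ ^ 2)) := fun n =>
      V1_vg (amp_aR hb hf (hR n))
    simp_rw [h2]
    refine le_trans (le_of_eq ?_) (lintegral_liminf_le fun n => ?_)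
    · unfold vF
      refine lintegral_congr fun ξ => ?_
      symm
      apply Tendsto.liminf_eq
      apply (ENNReal.continuous_ofReal.tendsto _).comp
      have h3 : Tendsto (fun n : ℕ => ξ / ((n : ℝ) + 1)) atTop (𝓝 0) := by
        refine Tendsto.const_div_atTop ?_ ξ
        exact tendsto_atTop_add_const_right _ _ tendsto_natCast_atTop_atTop
      have h4 : Tendsto (fun n : ℕ => b (ξ / ((n : ℝ) + 1))) atTop (𝓝 (b 0)) :=
        (hbc.tendsto 0).comp h3
      have h5 : Tendsto (fun n : ℕ => 2 * (|ξ| * ‖aR b f ((n : ℝ) + 1) ξ‖ ^ 2)) atTop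
          (𝓝 (2 * (|ξ| * ‖ftF f ξ * b 0‖ ^ 2))) := by
        unfold aR
        exact ((((h4.const_mul (ftF f ξ)).norm).pow 2).const_mul |ξ|).const_mul 2
      have h6 : 2 * (|ξ| * ‖ftF f ξ * b 0‖ ^ 2) = |ξ| * ‖ftF f ξ‖ ^ 2 / (2 * Real.pi ^ 2) := by
        rw [hb.zero, norm_mul, Complex.norm_real, Real.norm_of_nonneg (by positivity)]
        have := Real.pi_ne_zero
        field_simp
      rw [← h6]
      exact h5
    · have h3 : Continuous (aR b f ((n : ℝ) + 1)) := (amp_aR hb hf (hR n)).smooth.continuous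
      exact (ENNReal.continuous_ofReal.comp (by fun_prop)).measurable
  have h2 := eventually_lt_of_lt_liminf (lt_of_lt_of_le hc h1)
  obtain ⟨n, hn⟩ := h2.exists
  refine ⟨(n : ℝ) + 1, by linarith [(Nat.cast_nonneg n : (0 : ℝ) ≤ n)], ?_⟩
  exact (ENNReal.ofReal_lt_ofReal_iff'.1 hn).1

end SC35
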