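import Pool.Agent.LibSC35.Defs

/-! ROW K1 : the kernel. 45 min.
Plan. `ψ : ℝ → ℝ` a smooth even bump (`ContDiffBump (0 : ℝ)`, `ψ ≥ 0`, `ψ 0 = 1`, even because it depends on `‖x‖`; or
`fun x => g x + g (-x)`), `b t = c * ∫ s, ψ s * ψ (t - s)` (real `≥ 0`, smooth with compact support: convolution,
`HasCompactSupport.contDiff_convolution_left`, `HasCompactSupport.convolution`), `c = 1 / (2 π ∫ ψ ^ 2) > 0`. Fubini:
`∫ b t e^(i t y) dt = c (∫ ψ s e^(i s y) ds)^2`, and `∫ ψ s e^(i s y) ds` is real (`ψ` even), so `tf b y ≥ 0`, even.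
`∫ tf b = 2 π b 0 = 1`: Fourier inversion for the Schwartz function `b` (`ha.supp.toSchwartzMap`, `tf_eq_fourier` in
LibGWa/U1.lean; the integral of `tf a` may be in LibGWa/U2.lean). `dec`: as `tf_decay` (LibGWa/U1.lean) with `N`
instead of `4`. -/

open MeasureTheory Set Filter Topology FG33
open scoped ContDiff FourierTransform SchwartzMap Convolution

namespace SC35

open GWin

theorem tf_decayN {a : ℝ → ℂ} (ha : IsAmp a) (N : ℕ) :
    ∃ B : ℝ, 0 < B ∧ ∀ y, |tf a y| ≤ B / (1 + |y|) ^ N := by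
  set S := 𝓕 (ha.supp.toSchwartzMap ha.smooth) with hS
  set C := 2 ^ N * (Finset.Iic (N, 0)).sup (fun m : ℕ × ℕ => SchwartzMap.seminorm ℝ m.1 m.2) S
    with hC
  have h1 : ∀ x : ℝ, (1 + ‖x‖) ^ N * ‖S x‖ ≤ C := by
    intro x
    have := SchwartzMap.one_add_le_sup_seminorm_apply (𝕜 := ℝ) (m := (N, 0)) (k := N) (n := 0)
      le_rfl le_rfl S x
    simpa using this
  have hC0 : 0 ≤ C := le_trans (by positivity) (h1 0)
  have hpi := Real.pi_gt_three
  refine ⟨(2 * Real.pi) ^ N * (C + 1), by positivity, fun y => ?_⟩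
  have h2 := h1 (-(y / (2 * Real.pi)))
  rw [tf_eq_fourier ha, le_div_iff₀ (by positivity)]
  have h3 : |(S (-(y / (2 * Real.pi)))).re| ≤ ‖S (-(y / (2 * Real.pi)))‖ := Complex.abs_re_le_norm _
  have h4 : 1 + |y| ≤ (2 * Real.pi) * (1 + ‖-(y / (2 * Real.pi))‖) := by
    rw [norm_neg, norm_div, Real.norm_eq_abs, Real.norm_eq_abs, abs_of_pos (by positivity :
      0 < 2 * Real.pi)]
    have h5 : 2 * Real.pi * (1 + |y| / (2 * Real.pi)) = 2 * Real.pi + |y| := by
      field_simp
    rw [h5]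
    linarith
  calc |(S (-(y / (2 * Real.pi)))).re| * (1 + |y|) ^ N
      ≤ ‖S (-(y / (2 * Real.pi)))‖ * ((2 * Real.pi) * (1 + ‖-(y / (2 * Real.pi))‖)) ^ N := by gcongr
    _ = (2 * Real.pi) ^ N * ((1 + ‖-(y / (2 * Real.pi))‖) ^ N * ‖S (-(y / (2 * Real.pi)))‖) := by
        rw [mul_pow]; ring
    _ ≤ (2 * Real.pi) ^ N * C := by gcongr
    _ ≤ _ := by nlinarith [show (0:ℝ) < (2 * Real.pi) ^ N by positivity]

/-- Fourier inversion at `0`. -/
theorem tf_integral {a : ℝ → ℂ} (ha : IsAmp a) : ∫ y, tf a y = 2 * Real.pi * (a 0).re := by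
  have hpi := Real.pi_pos
  set S := ha.supp.toSchwartzMap ha.smooth with hS
  have h0 : ∀ y, tf a y = (fun u : ℝ => (𝓕 S u).re) (y * (-(1 / (2 * Real.pi)))) := by
    intro y
    rw [tf_eq_fourier ha]
    dsimp only
    congr 3
    ring
  rw [show (fun y => tf a y) = fun y => (fun u : ℝ => (𝓕 S u).re) (y * (-(1 / (2 * Real.pi)))) from funext h0]
  rw [Measure.integral_comp_mul_right (fun u : ℝ => (𝓕 S u).re)]
  have h1 : ∫ u : ℝ, (𝓕 S u).re = (a 0).re := by
    have hint : Integrable (fun u : ℝ => 𝓕 S u) := (𝓕 S).integrable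
    have h2 := integral_re (𝕜 := ℂ) hint
    simp only [RCLike.re_to_complex] at h2
    rw [h2]
    congr 1
    have h3 : 𝓕⁻ (𝓕 S) = S := FourierTransform.fourierInv_fourier_eq S
    have h4 : (𝓕⁻ (𝓕 S)) 0 = a 0 := by
      rw [h3]; rfl
    rw [SchwartzMap.fourierInv_coe, Real.fourierInv_eq] at h4
    simpa using h4
  rw [h1, smul_eq_mul]
  congr 1
  rw [inv_neg, abs_neg, one_div, inv_inv, abs_of_pos (by positivity)]

theorem ker_exists : ∃ b : ℝ → ℂ, Ker b := by
  have hpi := Real.pi_pos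
  let ψ : ContDiffBump (0 : ℝ) := ⟨1, 2, by norm_num, by norm_num⟩
  have fc : Continuous (fun x : ℝ => ψ x) := ψ.continuous
  have fsm : ContDiff ℝ ∞ (fun x : ℝ => ψ x) := ψ.contDiff
  have fsupp : HasCompactSupport (fun x : ℝ => ψ x) := ψ.hasCompactSupport
  have fnn : ∀ x, 0 ≤ ψ x := fun x => ψ.nonneg' x
  have fev : ∀ x, ψ (-x) = ψ x := fun x => ψ.neg x
  -- the real convolution
  let g : ℝ → ℝ := fun t => ∫ s, ψ s * ψ (t - s)
  have hg : g = (fun x : ℝ => ψ x) ⋆[ContinuousLinearMap.mul ℝ ℝ, volume] (fun x : ℝ => ψ x) := rfl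
  have gsm : ContDiff ℝ ∞ g := by
    rw [hg]
    exact fsupp.contDiff_convolution_left (n := ⊤) _ fsm fc.locallyIntegrable
  have gsupp : HasCompactSupport g := by
    rw [hg]
    exact fsupp.convolution _ fsupp
  have gnn : ∀ t, 0 ≤ g t := fun t => integral_nonneg fun s => mul_nonneg (fnn _) (fnn _)
  have gev : ∀ t, g (-t) = g t := by
    intro t
    show ∫ s, ψ s * ψ (-t - s) = ∫ s, ψ s * ψ (t - s)
    rw [← integral_neg_eq_self (fun s => ψ s * ψ (-t - s)) volume]
    refine integral_congr_ae (Eventually.of_forall fun s => ?_)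
    dsimp only
    rw [fev s]
    congr 1
    rw [← fev (t - s)]
    congr 1
    ring
  have g0 : 0 < g 0 := by
    show 0 < ∫ s, ψ s * ψ (0 - s)
    have h1 : (fun s => ψ s * ψ (0 - s)) = fun s => ψ s * ψ s := by
      ext s
      rw [zero_sub, fev]
    rw [h1]
    refine Continuous.integral_pos_of_hasCompactSupport_nonneg_nonzero (x := 0) ?_ ?_ ?_ ?_
    · exact fc.mul fc
    · exact fsupp.mul_left (f := fun x => ψ x)
    · intro s
      exact mul_nonneg (fnn _) (fnn _)
    · have : ψ 0 = 1 := ψ.one_of_mem_closedBall (by simp; exact ψ.rIn_pos.le)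
      simp [this]
  set c : ℝ := 1 / (2 * Real.pi * g 0) with hc
  have hc0 : 0 < c := by positivity
  let b : ℝ → ℂ := fun t => ((c * g t : ℝ) : ℂ)
  have bamp : IsAmp b := by
    refine ⟨?_, ?_, ?_⟩
    · exact Complex.ofRealCLM.contDiff.comp (contDiff_const.mul gsm)
    · have h1 : HasCompactSupport fun t => c * g t := gsupp.mul_left (f := fun _ => c)
      exact h1.comp_left (g := fun x : ℝ => (x : ℂ)) (by simp)
    · intro t
      show ((c * g (-t) : ℝ) : ℂ) = (starRingEnd ℂ) ((c * g t : ℝ) : ℂ)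
      rw [gev, Complex.conj_ofReal]
  -- the amplitude ψ
  let a0 : ℝ → ℂ := fun t => ((ψ t : ℝ) : ℂ)
  have a0amp : IsAmp a0 := by
    refine ⟨?_, ?_, ?_⟩
    · exact Complex.ofRealCLM.contDiff.comp fsm
    · exact fsupp.comp_left (g := fun x : ℝ => (x : ℂ)) (by simp)
    · intro t
      show ((ψ (-t) : ℝ) : ℂ) = (starRingEnd ℂ) ((ψ t : ℝ) : ℂ)
      rw [fev, Complex.conj_ofReal]
  have key : ∀ y, tf b y = c * tf a0 y ^ 2 := by
    intro y
    let F : ℝ → ℂ := fun t => a0 t * Complex.exp (Complex.I * (t * y : ℝ))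
    have hFc : Continuous F := by
      have := a0amp.smooth.continuous
      show Continuous fun t => a0 t * Complex.exp (Complex.I * (t * y : ℝ))
      fun_prop
    have hFs : HasCompactSupport F := a0amp.supp.mul_right
    have hFi : Integrable F := hFc.integrable_of_hasCompactSupport hFs
    have h1 := integral_convolution (ContinuousLinearMap.mul ℂ ℂ) (μ := volume) (ν := volume) hFi hFi
    have h2 : ∀ t, (F ⋆[ContinuousLinearMap.mul ℂ ℂ, volume] F) t
        = (g t : ℂ) * Complex.exp (Complex.I * (t * y : ℝ)) := by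
      intro t
      rw [convolution_def]
      have h3 : (g t : ℂ) = ∫ s, ((ψ s * ψ (t - s) : ℝ) : ℂ) := by
        exact (integral_ofReal (𝕜 := ℂ) (f := fun s => ψ s * ψ (t - s))).symm
      rw [h3, ← integral_mul_const]
      refine integral_congr_ae (Eventually.of_forall fun s => ?_)
      simp only [ContinuousLinearMap.mul_apply']
      show (((ψ s : ℝ) : ℂ) * Complex.exp (Complex.I * (s * y : ℝ))) *
        (((ψ (t - s) : ℝ) : ℂ) * Complex.exp (Complex.I * ((t - s) * y : ℝ))) = _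
      have h4 : Complex.exp (Complex.I * (t * y : ℝ)) = Complex.exp (Complex.I * (s * y : ℝ)) *
          Complex.exp (Complex.I * ((t - s) * y : ℝ)) := by
        rw [← Complex.exp_add]
        congr 1
        push_cast
        ring
      rw [h4]
      push_cast
      ring
    have h5 : ∫ t, b t * Complex.exp (Complex.I * (t * y : ℝ)) = (c : ℂ) * (tf a0 y : ℂ) ^ 2 := by
      have h6 : ∀ t, b t * Complex.exp (Complex.I * (t * y : ℝ))
          = (c : ℂ) * (F ⋆[ContinuousLinearMap.mul ℂ ℂ, volume] F) t := by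
        intro t
        rw [h2]
        show ((c * g t : ℝ) : ℂ) * _ = _
        push_cast
        ring
      simp_rw [h6]
      rw [integral_const_mul, h1]
      simp only [ContinuousLinearMap.mul_apply']
      have h7 : ∫ t, F t = (tf a0 y : ℂ) := tf_real a0amp y
      rw [h7]
      ring
    rw [tf_real bamp] at h5
    exact_mod_cast h5
  have ev0 : ∀ y, tf a0 (-y) = tf a0 y := by
    intro y
    have h1 := tf_real a0amp y
    have h2 := tf_real a0amp (-y)
    rw [← integral_neg_eq_self] at h2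
    have h3 : (fun t : ℝ => a0 (-t) * Complex.exp (Complex.I * ((-t) * (-y) : ℝ)))
        = fun t : ℝ => a0 t * Complex.exp (Complex.I * (t * y : ℝ)) := by
      ext t
      congr 1
      · show ((ψ (-t) : ℝ) : ℂ) = ((ψ t : ℝ) : ℂ)
        rw [fev]
      · congr 2
        simp
    rw [h3, h1] at h2
    exact_mod_cast h2.symm
  refine ⟨b, bamp, ?_, ?_, ?_, ?_, ?_, ?_⟩
  · intro t
    refine ⟨?_, Complex.ofReal_im _⟩
    show 0 ≤ ((c * g t : ℝ) : ℂ).re
    rw [Complex.ofReal_re]
    exact mul_nonneg hc0.le (gnn t)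
  · intro y
    rw [key]
    positivity
  · rw [tf_integral bamp]
    show 2 * Real.pi * ((c * g 0 : ℝ) : ℂ).re = 1
    rw [Complex.ofReal_re, hc]
    have := g0.ne'
    field_simp
  · intro y
    rw [key, key, ev0]
  · intro N
    obtain ⟨B, hB, h⟩ := tf_decayN bamp N
    exact ⟨B, hB, fun y => (le_abs_self _).trans (h y)⟩
  · show ((c * g 0 : ℝ) : ℂ) = ((1 / (2 * Real.pi) : ℝ) : ℂ)
    congr 1
    rw [hc]
    have := g0.ne'
    field_simp

end SC35
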