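import Pool.Agent.LibSC35.Defs
import Pool.Agent.LibGWa.U8

/-! Band limited test functions. -/

open MeasureTheory Set Filter Topology FG33
open scoped ContDiff FourierTransform SchwartzMap

namespace SC35

open GWin

theorem rd_tf {a : ℝ → ℂ} (ha : IsAmp a) : Rd (tf a) := by
  refine ⟨(tf_cont ha).measurable, fun N => ?_⟩
  set S := 𝓕 (ha.supp.toSchwartzMap ha.smooth) with hS
  set C := 2 ^ N * (Finset.Iic (N, 0)).sup (fun m : ℕ × ℕ => SchwartzMap.seminorm ℝ m.1 m.2) S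
    with hC
  have h1 : ∀ x : ℝ, (1 + ‖x‖) ^ N * ‖S x‖ ≤ C := by
    intro x
    have := SchwartzMap.one_add_le_sup_seminorm_apply (𝕜 := ℝ) (m := (N, 0)) (k := N) (n := 0)
      le_rfl le_rfl S x
    simpa using this
  have hC0 : 0 ≤ C := le_trans (by positivity) (h1 0)
  have hpi := Real.pi_gt_three
  refine ⟨(2 * Real.pi) ^ N * (C + 1), by positivity, fun y => ?_⟩
  have h2 := h1 (-(y / (2 * Real.pi)))
  rw [tf_eq_fourier ha, le_div_iff₀ (by positivity)]
  have h3 : |(S (-(y / (2 * Real.pi)))).re| ≤ ‖S (-(y / (2 * Real.pi)))‖ := Complex.abs_re_le_norm _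
  have h4 : 1 + |y| ≤ (2 * Real.pi) * (1 + ‖-(y / (2 * Real.pi))‖) := by
    rw [norm_neg, norm_div, Real.norm_eq_abs, Real.norm_eq_abs, abs_of_pos (by positivity :
      0 < 2 * Real.pi)]
    have h5 : 2 * Real.pi * (1 + |y| / (2 * Real.pi)) = 2 * Real.pi + |y| := by
      field_simp
    rw [h5]
    linarith
  calc |(S (-(y / (2 * Real.pi)))).re| * (1 + |y|) ^ N
      ≤ ‖S (-(y / (2 * Real.pi)))‖ * ((2 * Real.pi) * (1 + ‖-(y / (2 * Real.pi))‖)) ^ N := by gcongr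
    _ = (2 * Real.pi) ^ N * ((1 + ‖-(y / (2 * Real.pi))‖) ^ N * ‖S (-(y / (2 * Real.pi)))‖) := by
        rw [mul_pow]
        ring
    _ ≤ (2 * Real.pi) ^ N * C := by gcongr
    _ ≤ _ := by nlinarith [show (0:ℝ) < (2 * Real.pi) ^ N by positivity]

theorem tf_eq_inv {a : ℝ → ℂ} (ha : IsAmp a) (y : ℝ) :
    (tf a y : ℂ) = 𝓕⁻ a (y / (2 * Real.pi)) := by
  rw [← tf_real ha, Real.fourierInv_eq]
  refine integral_congr_ae (Eventually.of_forall fun t => ?_)
  dsimp only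
  rw [Circle.smul_def, smul_eq_mul, mul_comm, Real.fourierChar_apply]
  congr 2
  simp only [RCLike.inner_apply, conj_trivial]
  push_cast
  have : (Real.pi : ℂ) ≠ 0 := by exact_mod_cast Real.pi_ne_zero
  field_simp

theorem ftF_tf {a : ℝ → ℂ} (ha : IsAmp a) (t : ℝ) : ftF (tf a) t = 2 * Real.pi * a t := by
  have hpi := Real.pi_pos
  have h1 : ftF (tf a) t = ∫ u : ℝ, (fun x : ℝ => 𝓕⁻ a x *
      Complex.exp (-(Complex.I * (t * (2 * Real.pi * x) : ℝ)))) ((2 * Real.pi : ℝ)⁻¹ * u) := by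
    unfold ftF
    refine integral_congr_ae (Eventually.of_forall fun u => ?_)
    dsimp only
    rw [tf_eq_inv ha, div_eq_inv_mul, mul_inv_cancel_left₀ (by positivity)]
  rw [h1, Measure.integral_comp_mul_left (fun x : ℝ => 𝓕⁻ a x *
      Complex.exp (-(Complex.I * (t * (2 * Real.pi * x) : ℝ)))) (2 * Real.pi : ℝ)⁻¹, inv_inv,
      abs_of_pos (by positivity)]
  have h3 : ∫ x : ℝ, 𝓕⁻ a x * Complex.exp (-(Complex.I * (t * (2 * Real.pi * x) : ℝ))) =
      𝓕 (𝓕⁻ a) t := by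
    rw [Real.fourier_eq]
    refine integral_congr_ae (Eventually.of_forall fun x => ?_)
    dsimp only
    rw [Circle.smul_def, smul_eq_mul, mul_comm, Real.fourierChar_apply]
    congr 2
    simp only [RCLike.inner_apply, conj_trivial]
    push_cast
    ring
  rw [h3]
  have h4 : 𝓕 (𝓕⁻ a) t = a t := by
    have h5 : (𝓕⁻ (ha.supp.toSchwartzMap ha.smooth) : 𝓢(ℝ, ℂ)) = (𝓕⁻ a : ℝ → ℂ) := by
      rw [SchwartzMap.fourierInv_coe]
      rfl
    have h6 : 𝓕 (𝓕⁻ (ha.supp.toSchwartzMap ha.smooth)) = ha.supp.toSchwartzMap ha.smooth :=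
      FourierTransform.fourier_fourierInv_eq _
    have h7 := congrArg (fun g : 𝓢(ℝ, ℂ) => g t) h6
    rw [SchwartzMap.fourier_coe, h5] at h7
    rw [h7]
    rfl
  rw [h4, Complex.real_smul]
  push_cast
  ring

theorem vF_tf {a : ℝ → ℂ} (ha : IsAmp a) : vF (tf a) = (varGOE a : ENNReal) := by
  unfold vF varGOE
  have h1 : ∀ ξ, |ξ| * ‖ftF (tf a) ξ‖ ^ 2 / (2 * Real.pi ^ 2) =
      1 / (2 * Real.pi ^ 2) * (|ξ| * ‖2 * Real.pi * a ξ‖ ^ 2) := by
    intro ξ
    rw [ftF_tf ha]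
    ring
  simp only [h1]
  rw [← integral_const_mul]
  show _ = ENNReal.ofReal _
  rw [ofReal_integral_eq_lintegral_ofReal]
  · have hc : Continuous fun ξ => 1 / (2 * Real.pi ^ 2) * (|ξ| * ‖2 * Real.pi * a ξ‖ ^ 2) := by
      have := ha.smooth.continuous
      fun_prop
    refine hc.integrable_of_hasCompactSupport ?_
    refine ha.supp.mono' ?_
    intro ξ hξ
    refine subset_tsupport _ ?_
    rw [Function.mem_support] at hξ ⊢
    intro h0
    apply hξ
    rw [h0]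
    simp
  · exact Eventually.of_forall fun ξ => by positivity

end SC35
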