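import Pool.Agent.LibSC35.Fin
import Pool.Agent.LibSC35.Tf
import Pool.Agent.LibGD33.Asm2
import Pool.Agent.LibFE35.Defs

/-! Every metric of negative curvature, arbitrary test functions. -/

open MeasureTheory Set Filter Topology
open scoped ContDiff

namespace SC35

theorem rd_of {f : ℝ → ℝ} (hf : FE35.IsTest f) : Rd f := by
  refine ⟨hf.meas, fun N => ?_⟩
  obtain ⟨B, hB⟩ := hf.dec N
  refine ⟨max B 1, by positivity, fun y => (hB y).trans ?_⟩
  gcongr
  exact le_max_left _ _

theorem of_rd {f : ℝ → ℝ} (hf : Rd f) : FE35.IsTest f :=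
  ⟨hf.meas, fun N => by obtain ⟨B, _, hB⟩ := hf.dec N; exact ⟨B, hB⟩⟩

end SC35

namespace GD

open BGS BR

variable {Γ : Type} [Group Γ] [MulAction Γ Pl] {D : Set Pl}

/-- Every metric: at least the fluctuations of the GOE. -/
theorem every_metric (hX : Surface Γ D) (hO : Ori Γ) (m : Mt Γ D)
    (hSR : GWin.SumRule (GH.geo (BGM.tl m.1.1) (trg m.1.1) (Γ := Γ)))
    {L : ℝ → ℝ} (hL : Tendsto L atTop atTop)
    (hL' : Tendsto (fun T => L T / Real.log T) atTop (𝓝 0)) {f : ℝ → ℝ} (hf : FE35.IsTest f) :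
    FE35.vGOE f ≤ liminf (fun T => ENNReal.ofReal
        (FE35.tmean T fun τ => FE35.stat m f (L T) τ ^ 2)) atTop ∧
    ((∀ ξ, 0 ≤ (FE35.four f ξ).re ∧ (FE35.four f ξ).im = 0) → ∀ k : ℕ,
      ((2 * k - 1).doubleFactorial : ENNReal) * FE35.vGOE f ^ k ≤
        liminf (fun T => ENNReal.ofReal
          (FE35.tmean T fun τ => FE35.stat m f (L T) τ ^ (2 * k))) atTop) := by
  have hm : HM Γ m.1.1 := hm_of_Mt m
  obtain ⟨a, b, ha, hab, hk⟩ := curv_bounds hX hm
  have hG := grpData hX hO hm ha fun z => (hk z).2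
  exact SC35.every_F (GH.ok_geo hG) hSR (lev hX m) (trace_geo hX hO m ha fun z => (hk z).2)
    hL hL' (SC35.rd_of hf)

/-- The number of levels in the window. -/
theorem count_eq (hX : Surface Γ D) (m : Mt Γ D) {l : ℝ} (hl : 0 < l) (τ : ℝ) :
    FE35.stat m (indicator (Ico (0 : ℝ) 1) 1) l τ =
      (({k : ℕ | τ ≤ FG33.lam m k ∧ FG33.lam m k < τ + 1 / l}.ncard : ℕ) : ℝ) -
        τ / (2 * Real.pi * l) := by
  have hlev := lev hX m
  obtain ⟨c, hc, hg⟩ := hlev.grow
  have hfin : {k : ℕ | τ ≤ FG33.lam m k ∧ FG33.lam m k < τ + 1 / l}.Finite := by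
    refine (Set.finite_Iic (⌈((τ + 1 / l + 1) / c) ^ 2⌉₊)).subset fun k hk => ?_
    have h1 := hg k
    have h2 : c * √(k : ℝ) ≤ τ + 1 / l + 1 := by
      have : FG33.lam m k < τ + 1 / l := hk.2
      linarith
    have h3 : √(k : ℝ) ≤ (τ + 1 / l + 1) / c := by
      rw [le_div_iff₀ hc]
      linarith
    have h4 : (k : ℝ) ≤ ((τ + 1 / l + 1) / c) ^ 2 := by
      have := Real.sqrt_nonneg (k : ℝ)
      calc (k : ℝ) = √(k : ℝ) ^ 2 := (Real.sq_sqrt (by positivity)).symm
        _ ≤ _ := by gcongr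
    exact_mod_cast h4.trans (Nat.le_ceil _)
  unfold FE35.stat
  congr 1
  · rw [tsum_eq_sum (s := hfin.toFinset)]
    · rw [Set.ncard_eq_toFinset_card _ hfin, Finset.card_eq_sum_ones]
      push_cast
      refine Finset.sum_congr rfl fun k hk => ?_
      have hk' : k ∈ {k : ℕ | τ ≤ FG33.lam m k ∧ FG33.lam m k < τ + 1 / l} := by simpa using hk
      rw [indicator_of_mem]
      · rfl
      · constructor
        · have := hk'.1
          have h5 : 0 ≤ FG33.lam m k - τ := by linarith
          positivity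
        · have := hk'.2
          have h5 : FG33.lam m k - τ < 1 / l := by linarith
          calc l * (FG33.lam m k - τ) < l * (1 / l) := by gcongr
            _ = 1 := by field_simp
    · intro k hk
      rw [indicator_of_notMem]
      intro h5
      apply hk
      rw [hfin.mem_toFinset]
      constructor
      · have h6 : 0 ≤ FG33.lam m k - τ := by
          by_contra h7
          rw [not_le] at h7
          have := mul_neg_of_pos_of_neg hl h7
          linarith [h5.1]
        linarith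
      · have h6 : FG33.lam m k - τ < 1 / l := by
          rw [lt_div_iff₀ hl, mul_comm]
          exact h5.2
        linarith
  · rw [integral_indicator measurableSet_Ico]
    simp

/-- Every metric: the number variance tends to infinity. -/
theorem num_var (hX : Surface Γ D) (hO : Ori Γ) (m : Mt Γ D)
    (hSR : GWin.SumRule (GH.geo (BGM.tl m.1.1) (trg m.1.1) (Γ := Γ)))
    {L : ℝ → ℝ} (hL : Tendsto L atTop atTop)
    (hL' : Tendsto (fun T => L T / Real.log T) atTop (𝓝 0)) :
    Tendsto (fun T => FE35.tmean T fun τ =>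
      ((({k : ℕ | τ ≤ FG33.lam m k ∧ FG33.lam m k < τ + 1 / L T}.ncard : ℕ) : ℝ) -
        τ / (2 * Real.pi * L T)) ^ 2) atTop atTop := by
  have h1 := (every_metric hX hO m hSR hL hL' (SC35.of_rd SC35.rd_ind)).1
  have h2 : FE35.vGOE (indicator (Ico (0 : ℝ) 1) 1) = ⊤ := SC35.vF_ind
  rw [h2, top_le_iff] at h1
  rw [tendsto_atTop]
  intro c
  have h3 : ENNReal.ofReal c < liminf (fun T => ENNReal.ofReal
      (FE35.tmean T fun τ => FE35.stat m (indicator (Ico (0 : ℝ) 1) 1) (L T) τ ^ 2)) atTop := by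
    rw [h1]
    exact ENNReal.ofReal_lt_top
  filter_upwards [eventually_lt_of_lt_liminf h3, hL.eventually_gt_atTop 0] with T hT hLT
  have h4 : (fun τ => FE35.stat m (indicator (Ico (0 : ℝ) 1) 1) (L T) τ ^ 2) = fun τ =>
      ((({k : ℕ | τ ≤ FG33.lam m k ∧ FG33.lam m k < τ + 1 / L T}.ncard : ℕ) : ℝ) -
        τ / (2 * Real.pi * L T)) ^ 2 := by
    ext τ
    rw [count_eq hX m hLT]
  rw [← h4]
  by_contra h5
  rw [not_le] at h5
  exact absurd hT (not_lt.2 (ENNReal.ofReal_le_ofReal h5.le))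

end GD
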