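import Pool.Agent.LibGWa.U6

/-! Linear statistics for arbitrary (in particular sharp) test functions: definitions. -/

open MeasureTheory Set Filter Topology FG33
open scoped ContDiff

namespace SC35

open GWin

/-- Measurable functions which decrease rapidly. -/
structure Rd (f : ℝ → ℝ) : Prop where
  meas : Measurable f
  dec : ∀ N : ℕ, ∃ B : ℝ, 0 < B ∧ ∀ y, |f y| ≤ B / (1 + |y|) ^ N

/-- The linear statistic of the levels `κ` with the test function `f`. -/
noncomputable def stF (κ : ℕ → ℝ) (f : ℝ → ℝ) (l τ : ℝ) : ℝ :=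
  ∑' k, f (l * (κ k - τ)) - τ / (2 * Real.pi * l) * ∫ y, f y

/-- A nonnegative even kernel of integral one, the Fourier transform of a nonnegative smooth function with compact
support. -/
structure Ker (b : ℝ → ℂ) : Prop where
  amp : IsAmp b
  nn : ∀ t, 0 ≤ (b t).re ∧ (b t).im = 0
  pos : ∀ y, 0 ≤ tf b y
  one : ∫ y, tf b y = 1
  even : ∀ y, tf b (-y) = tf b y
  dec : ∀ N : ℕ, ∃ B : ℝ, 0 < B ∧ ∀ y, tf b y ≤ B / (1 + |y|) ^ N
  zero : b 0 = ((1 / (2 * Real.pi) : ℝ) : ℂ)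

/-- The Fourier transform of `f`. -/
noncomputable def ftF (f : ℝ → ℝ) (t : ℝ) : ℂ :=
  ∫ u, (f u : ℂ) * Complex.exp (-(Complex.I * (t * u : ℝ)))

/-- The amplitude of the mollified function `f * (R tf b (R ·))`. -/
noncomputable def aR (b : ℝ → ℂ) (f : ℝ → ℝ) (R : ℝ) (t : ℝ) : ℂ := ftF f t * b (t / R)

/-- The variance of the linear statistics of the GOE for `f`: `∫ |ξ| |f^ (ξ)|² dξ / (2 π²)`. -/
noncomputable def vF (f : ℝ → ℝ) : ENNReal :=
  ∫⁻ ξ, ENNReal.ofReal (|ξ| * ‖ftF f ξ‖ ^ 2 / (2 * Real.pi ^ 2))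

end SC35
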