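import Pool.Agent.LibSC35.Sharp
import Pool.Agent.LibEM73.N9

/-! Every metric, arbitrary test functions. -/

open MeasureTheory Set Filter Topology FG33 Mes
open scoped ContDiff

namespace SC35

open GWin EM73

theorem gm_even (S : ℝ) (k : ℕ) :
    gaussMom S (2 * k) = ((2 * k - 1).doubleFactorial : ℝ) * S ^ k := by
  unfold gaussMom
  rw [if_pos (even_two_mul k), Nat.mul_div_cancel_left k two_pos]

theorem low_liminf {V : ENNReal} {F : ℝ → ℝ}
    (h : ∀ c : ℝ, ENNReal.ofReal c < V → ∀ᶠ T in atTop, c ≤ F T) :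
    V ≤ liminf (fun T => ENNReal.ofReal (F T)) atTop := by
  refine le_of_forall_lt fun x hx => ?_
  obtain ⟨y, hxy, hy⟩ := exists_between hx
  have hy' : y ≠ ⊤ := ne_top_of_lt hy
  refine hxy.trans_le (le_liminf_of_le (by isBoundedDefault) ?_)
  filter_upwards [h y.toReal (by rwa [ENNReal.ofReal_toReal hy'])] with T hT
  rw [← ENNReal.ofReal_toReal hy']
  exact ENNReal.ofReal_le_ofReal hT

theorem low_liminf_pow {V : ENNReal} {F : ℝ → ℝ} {d k : ℕ} (hk : k ≠ 0)
    (h : ∀ c : ℝ, 0 ≤ c → ENNReal.ofReal c < V → ∀ᶠ T in atTop, (d : ℝ) * c ^ k ≤ F T) :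
    (d : ENNReal) * V ^ k ≤ liminf (fun T => ENNReal.ofReal (F T)) atTop := by
  rcases eq_or_ne V 0 with hV | hV
  · rw [hV, zero_pow hk, mul_zero]
    exact zero_le
  refine le_of_forall_lt fun x hx => ?_
  have h1 : Tendsto (fun c : ENNReal => (d : ENNReal) * c ^ k) (𝓝[<] V)
      (𝓝 ((d : ENNReal) * V ^ k)) := by
    refine Tendsto.mono_left ?_ nhdsWithin_le_nhds
    exact ENNReal.Tendsto.const_mul ((ENNReal.continuous_pow k).tendsto V)
      (Or.inr (ENNReal.natCast_ne_top d))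
  have h2 : (𝓝[<] V).NeBot := nhdsLT_neBot_of_exists_lt ⟨0, pos_iff_ne_zero.2 hV⟩
  obtain ⟨c, hc1, hc2⟩ := ((h1.eventually_const_lt hx).and self_mem_nhdsWithin).exists
  have hc3 : c ≠ ⊤ := ne_top_of_lt hc2
  refine hc1.trans_le (le_liminf_of_le (by isBoundedDefault) ?_)
  filter_upwards [h c.toReal ENNReal.toReal_nonneg (by rwa [ENNReal.ofReal_toReal hc3])] with T hT
  refine le_trans (le_of_eq ?_) (ENNReal.ofReal_le_ofReal hT)
  rw [ENNReal.ofReal_mul (by positivity), ENNReal.ofReal_natCast,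
    ENNReal.ofReal_pow ENNReal.toReal_nonneg, ENNReal.ofReal_toReal hc3]

theorem every_F {G : Geo} {κ : ℝ} (h : Ok G κ) (hSR : SumRule G) {lev : ℕ → ℝ} (hl : Lev lev)
    (hT : Trace G lev) {L : ℝ → ℝ} (hL : Tendsto L atTop atTop)
    (hL' : Tendsto (fun T => L T / Real.log T) atTop (𝓝 0)) {f : ℝ → ℝ} (hf : Rd f) :
    vF f ≤ liminf (fun T => ENNReal.ofReal (tm T fun u => stF lev f (L T) u ^ 2)) atTop ∧
    ((∀ t, 0 ≤ (ftF f t).re ∧ (ftF f t).im = 0) → ∀ k : ℕ,
      ((2 * k - 1).doubleFactorial : ENNReal) * vF f ^ k ≤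
        liminf (fun T => ENNReal.ofReal (tm T fun u => stF lev f (L T) u ^ (2 * k))) atTop) := by
  obtain ⟨b, hb⟩ := ker_exists
  constructor
  · refine low_liminf fun c hc => ?_
    obtain ⟨R, hR, hRc⟩ := vg_aR hb hf hc
    refine transfer hb hl hf hR even_two (M := vg (aR b f R)) ?_ hL hL' hRc
    intro L' h1 h2
    exact every_sq h hSR hl hT h1 h2 (amp_aR hb hf (by linarith))
  · intro hpos k
    rcases eq_or_ne k 0 with hk | hk
    · subst hk
      simp only [mul_zero, pow_zero]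
      refine le_liminf_of_le (by isBoundedDefault) ?_
      filter_upwards [eventually_gt_atTop 0] with T hT
      rw [tm_const hT]
      simp
    refine low_liminf_pow hk fun c hc0 hc => ?_
    obtain ⟨R, hR, hRc⟩ := vg_aR hb hf hc
    refine transfer hb hl hf hR (even_two_mul k) (M := gaussMom (vg (aR b f R)) (2 * k)) ?_ hL hL' ?_
    · intro L' h1 h2
      refine every_even h hSR hl hT h1 h2 (amp_aR hb hf (by linarith)) (fun t => ?_) k
      obtain ⟨p1, p2⟩ := hpos t
      obtain ⟨q1, q2⟩ := hb.nn (t / R)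
      unfold aR
      rw [Complex.mul_re, Complex.mul_im, p2, q2]
      simp only [mul_zero, sub_zero, zero_mul, add_zero, and_true]
      exact mul_nonneg p1 q1
    · rw [gm_even]
      have h3 : (0 : ℝ) < ((2 * k - 1).doubleFactorial : ℝ) := by
        exact_mod_cast Nat.doubleFactorial_pos _
      refine mul_lt_mul_of_pos_left ?_ h3
      exact pow_lt_pow_left₀ hRc hc0 hk

end SC35
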