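import Pool.Agent.LibSC35.Defs

/-! Elementary bounds of the statistic. -/

open MeasureTheory Set Filter Topology FG33
open scoped ContDiff

namespace SC35

open GWin

theorem term_bdF {κ : ℕ → ℝ} (h : Lev κ) {f : ℝ → ℝ} (hf : Rd f) : ∃ B : ℝ, 0 < B ∧
    ∀ l τ : ℝ, 1 ≤ l → ∀ n, |f (l * (κ n - τ))| ≤ B * (1 + |τ|) ^ 4 * (1 / (κ n + 1) ^ 4) := by
  obtain ⟨B, hB, hb⟩ := hf.dec 4
  refine ⟨B, hB, fun l τ hl n => ?_⟩
  have h0 := h.nn n
  have hl0 : 0 < l := by linarith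
  have h1 : 1 + |κ n - τ| ≤ 1 + |l * (κ n - τ)| := by
    rw [abs_mul, abs_of_pos hl0]
    have := abs_nonneg (κ n - τ)
    nlinarith
  have h2 : κ n + 1 ≤ (1 + |τ|) * (1 + |κ n - τ|) := by
    have h3 := abs_nonneg τ
    have h4 := abs_nonneg (κ n - τ)
    have h5 := le_abs_self (κ n - τ)
    have h6 := le_abs_self τ
    nlinarith [mul_nonneg h3 h4]
  have h3 : (κ n + 1) / (1 + |τ|) ≤ 1 + |l * (κ n - τ)| := by
    refine le_trans ?_ h1
    rw [div_le_iff₀ (by positivity)]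
    calc κ n + 1 ≤ (1 + |τ|) * (1 + |κ n - τ|) := h2
      _ = _ := by ring
  refine (hb _).trans ?_
  have h4 : 0 < (κ n + 1) / (1 + |τ|) := by positivity
  calc B / (1 + |l * (κ n - τ)|) ^ 4 ≤ B / ((κ n + 1) / (1 + |τ|)) ^ 4 := by gcongr
    _ = _ := by field_simp

theorem termF_summable {κ : ℕ → ℝ} (h : Lev κ) {f : ℝ → ℝ} (hf : Rd f) {l : ℝ} (hl : 1 ≤ l)
    (τ : ℝ) : Summable fun n => f (l * (κ n - τ)) := by
  obtain ⟨B, _, hb⟩ := term_bdF h hf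
  exact Summable.of_norm_bounded ((zsum h).mul_left (B * (1 + |τ|) ^ 4)) fun n => hb l τ hl n

theorem stF_meas {κ : ℕ → ℝ} (h : Lev κ) {f : ℝ → ℝ} (hf : Rd f) {l : ℝ} (hl : 1 ≤ l) :
    Measurable (stF κ f l) := by
  have h1 : Measurable fun τ => ∑' k, f (l * (κ k - τ)) := by
    refine measurable_of_tendsto_metrizable (f := fun (N : ℕ) τ =>
      ∑ k ∈ Finset.range N, f (l * (κ k - τ))) (fun N => ?_) ?_
    · refine Finset.measurable_sum _ fun k _ => ?_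
      exact hf.meas.comp (by fun_prop)
    · rw [tendsto_pi_nhds]
      intro τ
      exact (termF_summable h hf hl τ).hasSum.tendsto_sum_nat
  unfold stF
  exact h1.sub (by fun_prop)

theorem stF_bound {κ : ℕ → ℝ} (h : Lev κ) {f : ℝ → ℝ} (hf : Rd f) :
    ∃ C : ℝ, 0 < C ∧ ∀ l τ : ℝ, 1 ≤ l → |stF κ f l τ| ≤ C * (1 + |τ|) ^ 4 := by
  obtain ⟨B, hB, hb⟩ := term_bdF h hf
  have hZ : 0 ≤ ∑' n, 1 / (κ n + 1) ^ 4 := tsum_nonneg fun n => by
    have := h.nn n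
    positivity
  refine ⟨B * (∑' n, 1 / (κ n + 1) ^ 4) + |∫ y, f y| + 1, by positivity, fun l τ hl => ?_⟩
  have hpi := Real.pi_gt_three
  have h1 : |∑' k, f (l * (κ k - τ))| ≤ B * (1 + |τ|) ^ 4 * ∑' n, 1 / (κ n + 1) ^ 4 := by
    have h2 := tsum_of_norm_bounded (f := fun k => f (l * (κ k - τ)))
      ((zsum h).mul_left (B * (1 + |τ|) ^ 4)).hasSum fun n => hb l τ hl n
    rw [tsum_mul_left, Real.norm_eq_abs] at h2
    exact h2
  have h3 : |τ / (2 * Real.pi * l) * ∫ y, f y| ≤ |∫ y, f y| * (1 + |τ|) ^ 4 := by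
    rw [abs_mul, abs_div, abs_of_pos (by positivity : 0 < 2 * Real.pi * l), mul_comm]
    refine mul_le_mul_of_nonneg_left ?_ (abs_nonneg _)
    have h4 := abs_nonneg τ
    calc |τ| / (2 * Real.pi * l) ≤ |τ| := div_le_self h4 (by nlinarith)
      _ ≤ (1 + |τ|) := by linarith
      _ ≤ (1 + |τ|) ^ 4 := le_self_pow₀ (by linarith) (by norm_num)
  unfold stF
  refine (abs_sub _ _).trans ((add_le_add h1 h3).trans ?_)
  have h5 : 0 ≤ (1 + |τ|) ^ 4 := by positivity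
  nlinarith

end SC35
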