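import Pool.Agent.LibSC35.M1
import Pool.Agent.LibSC35.J1

/-! ROW J2 : mollification of the statistic. 45 min.
Plan. `tf_aR`, `int_aR`. For each `k` the substitution `u = l * (κ k - τ + σ)` in `tf_aR` (`y = l * (κ k - τ)`;
`R * (y - u) = - R l σ`, `hb.even`) gives `tf (aR b f R) (l * (κ k - τ)) = ∫ σ, f (l * (κ k - (τ - σ))) * (R * l * tf b (R * l * σ))`.
Sum over `k`: exchange (`integral_tsum` or `hasSum_integral_of_summable_integral_norm`: by `term_bdF` the norm of the
`k`-th integrand is at most `B (1 + |τ| + |σ|)^4 / (κ k + 1)^4` times the kernel, integrable by `hb.dec 6`; `zsum`).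
Weyl term: `∫ (τ - σ) * (R l tf b (R l σ)) dσ = τ` (scaling, `hb.one`, `hb.even`: the odd part vanishes). -/

open MeasureTheory Set Filter Topology FG33
open scoped ContDiff

namespace SC35

open GWin

/-- The kernel is integrable against powers. -/
theorem J2_wint {b : ℝ → ℂ} (hb : Ker b) (n : ℕ) {c : ℝ} (hc : 0 < c) :
    Integrable fun σ => (1 + |σ|) ^ n * (c * tf b (c * σ)) := by
  obtain ⟨B, hB, hd⟩ := hb.dec (n + 2)
  have h0 : Integrable fun y : ℝ => (1 + |y|) ^ n * tf b y := by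
    have h1 : Integrable fun x : ℝ => B * (1 + ‖x‖) ^ (-(2 : ℝ)) :=
      (integrable_one_add_norm (μ := (volume : Measure ℝ)) (by simp)).const_mul B
    refine h1.mono' (((continuous_const.add continuous_abs).pow n).mul
      (tf_cont hb.amp)).aestronglyMeasurable (Eventually.of_forall fun x => ?_)
    have hx : 0 < 1 + |x| := by positivity
    rw [Real.norm_eq_abs, abs_of_nonneg (mul_nonneg (by positivity) (hb.pos x))]
    refine (mul_le_mul_of_nonneg_left (hd x) (by positivity)).trans (le_of_eq ?_)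
    rw [Real.rpow_neg (by positivity), Real.norm_eq_abs]
    norm_cast
    rw [pow_add]
    field_simp
  have h2 : Integrable fun σ : ℝ => (1 + 1 / c) ^ n * c * ((1 + |c * σ|) ^ n * tf b (c * σ)) :=
    (h0.comp_mul_left' hc.ne').const_mul _
  refine h2.mono' (((continuous_const.add continuous_abs).pow n).mul
    (continuous_const.mul ((tf_cont hb.amp).comp
      (continuous_const.mul continuous_id)))).aestronglyMeasurable
    (Eventually.of_forall fun x => ?_)
  have hp := hb.pos (c * x)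
  rw [Real.norm_eq_abs, abs_of_nonneg (by positivity)]
  have h3 : 1 + |x| ≤ (1 + 1 / c) * (1 + |c * x|) := by
    rw [abs_mul, abs_of_pos hc]
    have h4 : (1 + 1 / c) * (1 + c * |x|) = 1 + |x| + (1 / c + c * |x|) := by
      field_simp
      ring
    rw [h4]
    have : 0 ≤ 1 / c + c * |x| := by positivity
    linarith
  calc (1 + |x|) ^ n * (c * tf b (c * x))
      ≤ ((1 + 1 / c) * (1 + |c * x|)) ^ n * (c * tf b (c * x)) := by gcongr
    _ = _ := by
      rw [mul_pow]
      ring

/-- The kernel has integral one. -/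
theorem J2_one {b : ℝ → ℂ} (hb : Ker b) {c : ℝ} (hc : 0 < c) :
    ∫ σ, c * tf b (c * σ) = 1 := by
  rw [integral_const_mul, Measure.integral_comp_mul_left (fun y => tf b y) c, hb.one,
    abs_of_pos (inv_pos.2 hc), smul_eq_mul, mul_one]
  exact mul_inv_cancel₀ hc.ne'

/-- The first moment of the kernel vanishes. -/
theorem J2_odd {b : ℝ → ℂ} (hb : Ker b) (c : ℝ) :
    ∫ σ, σ * (c * tf b (c * σ)) = 0 := by
  have h1 := integral_neg_eq_self (fun σ => σ * (c * tf b (c * σ))) volume
  have h2 : ∫ σ, -σ * (c * tf b (c * -σ)) = - ∫ σ, σ * (c * tf b (c * σ)) := by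
    rw [← integral_neg]
    refine integral_congr_ae (Eventually.of_forall fun σ => ?_)
    dsimp only
    rw [mul_neg, hb.even]
    ring
  have h3 : ∫ σ, -σ * (c * tf b (c * -σ)) = ∫ σ, σ * (c * tf b (c * σ)) := h1
  linarith

/-- The product of a weight of size `(1 + |σ|) ^ n` and the kernel is integrable. -/
theorem J2_dom {b : ℝ → ℂ} (hb : Ker b) (n : ℕ) {c : ℝ} (hc : 0 < c) {g : ℝ → ℝ} (hg : Measurable g)
    {A : ℝ} (hA : ∀ σ, |g σ| ≤ A * (1 + |σ|) ^ n) :
    Integrable fun σ => g σ * (c * tf b (c * σ)) := by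
  refine ((J2_wint hb n hc).const_mul A).mono' (hg.mul (continuous_const.mul
    ((tf_cont hb.amp).comp (continuous_const.mul continuous_id))).measurable).aestronglyMeasurable
    (Eventually.of_forall fun σ => ?_)
  have hp := mul_nonneg hc.le (hb.pos (c * σ))
  rw [Real.norm_eq_abs, abs_mul, abs_of_nonneg hp]
  calc |g σ| * (c * tf b (c * σ)) ≤ A * (1 + |σ|) ^ n * (c * tf b (c * σ)) :=
        mul_le_mul_of_nonneg_right (hA σ) hp
    _ = _ := by ring

theorem J2_tri (τ σ : ℝ) : 1 + |τ - σ| ≤ (1 + |τ|) * (1 + |σ|) := by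
  have h1 : |τ - σ| ≤ |τ| + |σ| := abs_sub _ _
  have h2 := mul_nonneg (abs_nonneg τ) (abs_nonneg σ)
  nlinarith

theorem st_moll {b : ℝ → ℂ} (hb : Ker b) {κ : ℕ → ℝ} (h : Lev κ) {f : ℝ → ℝ} (hf : Rd f)
    {R l : ℝ} (hR : 0 < R) (hl : 1 ≤ l) (τ : ℝ) :
    st κ (aR b f R) l τ = ∫ σ, stF κ f l (τ - σ) * (R * l * tf b (R * l * σ)) := by
  have hl0 : 0 < l := by linarith
  have hc : 0 < R * l := mul_pos hR hl0
  obtain ⟨B, hB, hbd⟩ := term_bdF h hf
  obtain ⟨C, hC, hst⟩ := stF_bound h hf
  -- the terms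
  have hF : ∀ k, tf (aR b f R) (l * (κ k - τ)) =
      ∫ σ, f (l * (κ k - (τ - σ))) * (R * l * tf b (R * l * σ)) := by
    intro k
    rw [tf_aR hb hf hR]
    have h1 := Measure.integral_comp_mul_left
      (fun u => f (u + l * (κ k - τ)) * (R * tf b (R * (l * (κ k - τ) - (u + l * (κ k - τ)))))) l
    have h2 := integral_add_right_eq_self (μ := (volume : Measure ℝ))
      (fun u => f u * (R * tf b (R * (l * (κ k - τ) - u)))) (l * (κ k - τ))
    rw [h2, abs_of_pos (inv_pos.2 hl0), smul_eq_mul] at h1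
    have h3 : ∫ u, f u * (R * tf b (R * (l * (κ k - τ) - u))) =
        l * ∫ σ, f (l * σ + l * (κ k - τ)) *
          (R * tf b (R * (l * (κ k - τ) - (l * σ + l * (κ k - τ))))) := by
      rw [h1, ← mul_assoc, mul_inv_cancel₀ hl0.ne', one_mul]
    rw [h3, ← integral_const_mul]
    refine integral_congr_ae (Eventually.of_forall fun σ => ?_)
    dsimp only
    rw [show R * (l * (κ k - τ) - (l * σ + l * (κ k - τ))) = -(R * l * σ) by ring, hb.even,
      show l * σ + l * (κ k - τ) = l * (κ k - (τ - σ)) by ring]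
    ring
  have hbk : ∀ k σ, |f (l * (κ k - (τ - σ)))| ≤
      B * (1 + |τ|) ^ 4 * (1 / (κ k + 1) ^ 4) * (1 + |σ|) ^ 4 := by
    intro k σ
    have h0 := h.nn k
    refine (hbd l (τ - σ) hl k).trans ?_
    have h1 : (1 + |τ - σ|) ^ 4 ≤ ((1 + |τ|) * (1 + |σ|)) ^ 4 := by
      have := J2_tri τ σ
      gcongr
    calc B * (1 + |τ - σ|) ^ 4 * (1 / (κ k + 1) ^ 4)
        ≤ B * ((1 + |τ|) * (1 + |σ|)) ^ 4 * (1 / (κ k + 1) ^ 4) := by gcongr
      _ = _ := by ring
  have hFi : ∀ k, Integrable fun σ => f (l * (κ k - (τ - σ))) * (R * l * tf b (R * l * σ)) :=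
    fun k => J2_dom hb 4 hc (hf.meas.comp (by fun_prop)) (hbk k)
  have hFs : Summable fun k => ∫ σ, ‖f (l * (κ k - (τ - σ))) * (R * l * tf b (R * l * σ))‖ := by
    refine Summable.of_nonneg_of_le (fun k => integral_nonneg fun σ => norm_nonneg _) (fun k => ?_)
      ((zsum h).mul_left (B * (1 + |τ|) ^ 4 *
        ∫ σ, (1 + |σ|) ^ 4 * (R * l * tf b (R * l * σ))))
    have h0 := h.nn k
    calc ∫ σ, ‖f (l * (κ k - (τ - σ))) * (R * l * tf b (R * l * σ))‖
        ≤ ∫ σ, B * (1 + |τ|) ^ 4 * (1 / (κ k + 1) ^ 4) *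
            ((1 + |σ|) ^ 4 * (R * l * tf b (R * l * σ))) := by
          refine integral_mono (hFi k).norm ((J2_wint hb 4 hc).const_mul _) fun σ => ?_
          have hp := mul_nonneg hc.le (hb.pos (R * l * σ))
          dsimp only
          rw [Real.norm_eq_abs, abs_mul, abs_of_nonneg hp]
          refine (mul_le_mul_of_nonneg_right (hbk k σ) hp).trans (le_of_eq ?_)
          ring
      _ = _ := by
          rw [integral_const_mul]
          ring
  have hsum : ∑' k, tf (aR b f R) (l * (κ k - τ)) =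
      ∫ σ, ∑' k, f (l * (κ k - (τ - σ))) * (R * l * tf b (R * l * σ)) := by
    rw [← integral_tsum_of_summable_integral_norm hFi hFs]
    exact tsum_congr hF
  -- integrability of the statistic against the kernel
  have hA : Integrable fun σ => stF κ f l (τ - σ) * (R * l * tf b (R * l * σ)) := by
    refine J2_dom hb 4 hc (A := C * (1 + |τ|) ^ 4) ((stF_meas h hf hl).comp (by fun_prop)) fun σ => ?_
    refine (hst l (τ - σ) hl).trans ?_
    have h1 : (1 + |τ - σ|) ^ 4 ≤ ((1 + |τ|) * (1 + |σ|)) ^ 4 := by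
      have := J2_tri τ σ
      gcongr
    calc C * (1 + |τ - σ|) ^ 4 ≤ C * ((1 + |τ|) * (1 + |σ|)) ^ 4 := by gcongr
      _ = _ := by ring
  have hK : Integrable fun σ => R * l * tf b (R * l * σ) := by
    simpa using J2_wint hb 0 hc
  have hK1 : Integrable fun σ => σ * (R * l * tf b (R * l * σ)) := by
    refine J2_dom hb 1 hc (A := 1) measurable_id fun σ => ?_
    have := abs_nonneg σ
    show |σ| ≤ 1 * (1 + |σ|) ^ 1
    linarith
  have hL : Integrable fun σ => (τ - σ) * (R * l * tf b (R * l * σ)) := by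
    have := (hK.const_mul τ).sub hK1
    refine this.congr (Eventually.of_forall fun σ => ?_)
    simp only [Pi.sub_apply]
    ring
  have hLe : ∫ σ, (τ - σ) * (R * l * tf b (R * l * σ)) = τ := by
    have h1 : ∫ σ, (τ - σ) * (R * l * tf b (R * l * σ)) =
        ∫ σ, (τ * (R * l * tf b (R * l * σ)) - σ * (R * l * tf b (R * l * σ))) := by
      refine integral_congr_ae (Eventually.of_forall fun σ => ?_)
      dsimp only
      ring
    rw [h1, integral_sub (hK.const_mul τ) hK1, integral_const_mul, J2_one hb hc, J2_odd hb]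
    ring
  have hS : ∫ σ, ∑' k, f (l * (κ k - (τ - σ))) * (R * l * tf b (R * l * σ)) =
      ∫ σ, (stF κ f l (τ - σ) * (R * l * tf b (R * l * σ)) +
        (1 / (2 * Real.pi * l) * ∫ y, f y) * ((τ - σ) * (R * l * tf b (R * l * σ)))) := by
    refine integral_congr_ae (Eventually.of_forall fun σ => ?_)
    dsimp only
    rw [tsum_mul_right]
    unfold stF
    ring
  unfold st
  rw [hsum, hS, integral_add hA (hL.const_mul _), integral_const_mul, hLe, int_aR hb hf hR]
  ring

end SC35
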