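import Pool.Agent.LibSC35.J2
import Pool.Agent.LibEM73.N1

/-! ROW J3 : the moments of the mollified statistic are at most the ones of the statistic. 60 min.
Plan. `k σ = R l tf b (R l σ) ≥ 0`, `∫ k = 1`. Jensen in `st_moll` for the convex function `x ^ r` (`hr.convexOn_pow`,
`ConvexOn.map_integral_le` for the probability measure `volume.withDensity k`): `st^r ≤ ∫ stF (τ - σ)^r k σ dσ`. With
`S = T - δ ≥ T / 2`:
`tm S (st^r) ≤ 2 / S² ∫ k σ (∫ τ in 0..S, (S - τ) stF (τ - σ)^r) dσ` (Tonelli). For `|σ| ≤ δ` put `v = τ - σ`: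
`S - τ = S - v - σ ≤ T - v`, so the inner integral is `≤ ∫ v in -δ..T, (T - v) stF v ^r`, the part `-δ..0` being
`≤ δ (T + δ) C^r (1 + δ)^(4 r)` (`stF_bound`) and the part `0..T` equal to `T² / 2 * tm T (stF^r)`. For `|σ| > δ` the inner
integral is at most `S² C^r (1 + T + |σ|)^(4 r) ≤ S² C^r (1 + T)^(4 r) (1 + |σ|)^(4 r)`, and
`∫_{|σ| > δ} (1 + |σ|)^(4 r) k σ dσ ≤ ∫_{|v| > δ} (1 + |v|)^(4 r) tf b v dv` (`v = R l σ`, `R l ≥ 1`)
`≤ B ∫_{|v| > δ} (1 + |v|)^(- N - 2) dv ≤ B' δ ^ (- N)` (`hb.dec (4 r + N + 2)`). It may be easier to work with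
`lintegral`. -/

open MeasureTheory Set Filter Topology FG33
open scoped ContDiff

namespace SC35

open GWin EM73

private theorem J3_tangent {r : ℕ} (hr : Even r) (m x : ℝ) :
    m ^ r + r * m ^ (r - 1) * (x - m) ≤ x ^ r := by
  have hc : ConvexOn ℝ univ fun y : ℝ => y ^ r := hr.convexOn_pow
  have hd : HasDerivAt (fun y : ℝ => y ^ r) (r * m ^ (r - 1)) m := hasDerivAt_pow r m
  rcases lt_trichotomy x m with hx | hx | hx
  · have h1 := hc.slope_le_of_hasDerivAt (mem_univ x) (mem_univ m) hx hd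
    rw [slope_def_field, div_le_iff₀ (by linarith)] at h1
    linarith
  · subst hx
    simp
  · have h1 := hc.le_slope_of_hasDerivAt (mem_univ m) (mem_univ x) hx hd
    rw [slope_def_field, le_div_iff₀ (by linarith)] at h1
    linarith

private theorem J3_pint {b : ℝ → ℂ} (hb : Ker b) {κ : ℕ → ℝ} (h : Lev κ) {f : ℝ → ℝ} (hf : Rd f)
    (r : ℕ) {R l : ℝ} (hR : 0 < R) (hl : 1 ≤ l) (τ : ℝ) :
    Integrable fun σ => stF κ f l (τ - σ) ^ r * (R * l * tf b (R * l * σ)) := by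
  obtain ⟨C, hC, hst⟩ := stF_bound h hf
  refine J2_dom hb (4 * r) (mul_pos hR (by linarith)) (A := (C * (1 + |τ|) ^ 4) ^ r)
    (((stF_meas h hf hl).comp (by fun_prop)).pow_const r) fun σ => ?_
  have h1 := J2_tri τ σ
  have h2 := hst l (τ - σ) hl
  rw [abs_pow]
  calc |stF κ f l (τ - σ)| ^ r ≤ (C * (1 + |τ - σ|) ^ 4) ^ r := by gcongr
    _ ≤ (C * ((1 + |τ|) * (1 + |σ|)) ^ 4) ^ r := by gcongr
    _ = _ := by
      rw [mul_pow (1 + |τ|), ← mul_assoc, mul_pow (C * (1 + |τ|) ^ 4), pow_mul]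

theorem moll_jensen {b : ℝ → ℂ} (hb : Ker b) {κ : ℕ → ℝ} (h : Lev κ) {f : ℝ → ℝ} (hf : Rd f)
    {r : ℕ} (hr : Even r) {R l : ℝ} (hR : 0 < R) (hl : 1 ≤ l) (τ : ℝ) :
    st κ (aR b f R) l τ ^ r ≤ ∫ σ, stF κ f l (τ - σ) ^ r * (R * l * tf b (R * l * σ)) := by
  have hl0 : 0 < l := by linarith
  have hc : 0 < R * l := mul_pos hR hl0
  have hm := st_moll hb h hf hR hl τ
  have hA : Integrable fun σ => stF κ f l (τ - σ) * (R * l * tf b (R * l * σ)) := by
    simpa using J3_pint hb h hf 1 hR hl τ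
  have hAr := J3_pint hb h hf r hR hl τ
  have hK : Integrable fun σ => R * l * tf b (R * l * σ) := by
    simpa using J2_wint hb 0 hc
  obtain ⟨m, hmd⟩ : ∃ m, m = st κ (aR b f R) l τ := ⟨_, rfl⟩
  rw [← hmd] at hm ⊢
  have hI : Integrable fun σ => (m ^ r - r * m ^ (r - 1) * m) * (R * l * tf b (R * l * σ)) +
      r * m ^ (r - 1) * (stF κ f l (τ - σ) * (R * l * tf b (R * l * σ))) :=
    (hK.const_mul _).add (hA.const_mul _)
  have h1 : ∫ σ, ((m ^ r - r * m ^ (r - 1) * m) * (R * l * tf b (R * l * σ)) +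
      r * m ^ (r - 1) * (stF κ f l (τ - σ) * (R * l * tf b (R * l * σ)))) ≤
      ∫ σ, stF κ f l (τ - σ) ^ r * (R * l * tf b (R * l * σ)) := by
    refine integral_mono hI hAr fun σ => ?_
    have hp := mul_nonneg hc.le (hb.pos (R * l * σ))
    have h2 := mul_le_mul_of_nonneg_right (J3_tangent hr m (stF κ f l (τ - σ))) hp
    refine le_trans (le_of_eq ?_) h2
    ring
  refine le_trans (le_of_eq ?_) h1
  rw [integral_add (hK.const_mul _) (hA.const_mul _),
    integral_const_mul (m ^ r - r * m ^ (r - 1) * m) (fun σ => R * l * tf b (R * l * σ)),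
    integral_const_mul (r * m ^ (r - 1)) (fun σ => stF κ f l (τ - σ) * (R * l * tf b (R * l * σ))),
    J2_one hb hc, ← hm]
  ring

/-- The moments of the scaled kernel. -/
private theorem J3_mom {b : ℝ → ℂ} (hb : Ker b) (n : ℕ) {c : ℝ} (hc : 1 ≤ c) :
    ∫ σ, (1 + |σ|) ^ n * (c * tf b (c * σ)) ≤ ∫ v, (1 + |v|) ^ n * tf b v := by
  have hc0 : 0 < c := by linarith
  have h0 : Integrable fun v => (1 + |v|) ^ n * tf b v := by simpa using J2_wint hb n one_pos
  have h1 := Measure.integral_comp_mul_left (fun v => (1 + |v|) ^ n * tf b v) c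
  have h2 : ∫ v, (1 + |v|) ^ n * tf b v =
      ∫ σ, c * ((1 + |c * σ|) ^ n * tf b (c * σ)) := by
    rw [integral_const_mul, h1, abs_of_pos (inv_pos.2 hc0), smul_eq_mul, ← mul_assoc,
      mul_inv_cancel₀ hc0.ne', one_mul]
  rw [h2]
  refine integral_mono (J2_wint hb n hc0) ((h0.comp_mul_left' hc0.ne').const_mul c) fun σ => ?_
  have hp := hb.pos (c * σ)
  have h3 : |σ| ≤ |c * σ| := by
    rw [abs_mul, abs_of_pos hc0]
    nlinarith [abs_nonneg σ]
  dsimp only
  calc (1 + |σ|) ^ n * (c * tf b (c * σ)) ≤ (1 + |c * σ|) ^ n * (c * tf b (c * σ)) := by gcongr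
    _ = _ := by ring

private theorem J3_ii {G : ℝ → ℝ} (hG : Measurable G) (hG0 : ∀ v, 0 ≤ G v) {A : ℝ} {n : ℕ}
    (hA : 0 ≤ A) (hGA : ∀ v, G v ≤ A * (1 + |v|) ^ n) (c s a b : ℝ) :
    IntervalIntegrable (fun v => (c - v) * G (v - s)) volume a b := by
  rw [intervalIntegrable_iff]
  obtain ⟨M, hM⟩ : ∃ M, M = max |min a b| |max a b| := ⟨_, rfl⟩
  have hM0 : 0 ≤ M := by
    rw [hM]
    exact le_max_of_le_left (abs_nonneg _)
  refine Measure.integrableOn_of_bounded (M := (|c| + M) * (A * (1 + (M + |s|)) ^ n)) ?_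
    ((measurable_const.sub measurable_id).mul (hG.comp (by fun_prop))).aestronglyMeasurable ?_
  · exact measure_Ioc_lt_top.ne
  · refine (ae_restrict_mem measurableSet_uIoc).mono fun v hv => ?_
    have h1 : |v| ≤ M := by
      rw [hM]
      exact abs_le_max_abs_abs hv.1.le hv.2
    have h2 : |c - v| ≤ |c| + M := (abs_sub _ _).trans (by linarith)
    have h3 : |v - s| ≤ M + |s| := (abs_sub _ _).trans (by linarith)
    rw [Real.norm_eq_abs, abs_mul, abs_of_nonneg (hG0 _)]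
    have h4 := hG0 (v - s)
    calc |c - v| * G (v - s) ≤ (|c| + M) * (A * (1 + |v - s|) ^ n) := by
          have := hGA (v - s)
          gcongr
      _ ≤ _ := by gcongr

/-- The shifted mean, small shifts. -/
private theorem J3_near {G : ℝ → ℝ} (hG : Measurable G) (hG0 : ∀ v, 0 ≤ G v) {A : ℝ} {n : ℕ}
    (hA : 0 ≤ A) (hGA : ∀ v, G v ≤ A * (1 + |v|) ^ n) {T δ σ : ℝ} (hδ : 1 ≤ δ) (hT : 2 * δ ≤ T)
    (hσ : |σ| ≤ δ) :
    ∫ u in (0 : ℝ)..(T - δ), (T - δ - u) * G (u - σ) ≤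
      (∫ v in (0 : ℝ)..T, (T - v) * G v) + δ * ((T + δ) * (A * (1 + δ) ^ n)) := by
  obtain ⟨hσ1, hσ2⟩ := abs_le.1 hσ
  have hint : ∀ c a b : ℝ, IntervalIntegrable (fun v => (c - v) * G v) volume a b := by
    intro c a b
    simpa using J3_ii hG hG0 hA hGA c 0 a b
  have h1 : ∫ u in (0 : ℝ)..(T - δ), (T - δ - u) * G (u - σ) =
      ∫ v in (-σ)..(T - δ - σ), (T - δ - σ - v) * G v := by
    have h := intervalIntegral.integral_comp_sub_right (a := 0) (b := T - δ)
      (fun v => (T - δ - σ - v) * G v) σ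
    rw [zero_sub] at h
    rw [← h]
    refine intervalIntegral.integral_congr fun u _ => ?_
    show (T - δ - u) * G (u - σ) = (T - δ - σ - (u - σ)) * G (u - σ)
    congr 1
    ring
  have h2 : ∫ v in (-σ)..(T - δ - σ), (T - δ - σ - v) * G v ≤
      ∫ v in (-σ)..(T - δ - σ), (T - v) * G v := by
    refine intervalIntegral.integral_mono_on (by linarith) (hint _ _ _) (hint _ _ _) fun v _ => ?_
    exact mul_le_mul_of_nonneg_right (by linarith) (hG0 v)
  have h3 : ∫ v in (-σ)..(T - δ - σ), (T - v) * G v ≤ ∫ v in (-δ)..T, (T - v) * G v := by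
    refine intervalIntegral.integral_mono_interval (by linarith) (by linarith) (by linarith) ?_
      (hint _ _ _)
    refine (ae_restrict_mem measurableSet_Ioc).mono fun v hv => ?_
    exact mul_nonneg (by linarith [hv.2]) (hG0 v)
  have h4 : ∫ v in (-δ)..T, (T - v) * G v =
      (∫ v in (-δ)..0, (T - v) * G v) + ∫ v in (0 : ℝ)..T, (T - v) * G v :=
    (intervalIntegral.integral_add_adjacent_intervals (hint _ _ _) (hint _ _ _)).symm
  have h5 : ∫ v in (-δ)..0, (T - v) * G v ≤ δ * ((T + δ) * (A * (1 + δ) ^ n)) := by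
    have h6 : ∫ v in (-δ)..0, (T - v) * G v ≤
        ∫ _v in (-δ)..0, (T + δ) * (A * (1 + δ) ^ n) := by
      refine intervalIntegral.integral_mono_on (by linarith) (hint _ _ _)
        intervalIntegrable_const fun v hv => ?_
      have h7 : |v| ≤ δ := abs_le.2 ⟨hv.1, by linarith [hv.2]⟩
      have h8 : G v ≤ A * (1 + δ) ^ n := (hGA v).trans (by gcongr)
      exact mul_le_mul (by linarith [hv.1]) h8 (hG0 v) (by linarith)
    rw [intervalIntegral.integral_const, smul_eq_mul, sub_neg_eq_add, zero_add] at h6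
    exact h6
  rw [h1]
  linarith

/-- The shifted mean, all shifts. -/
private theorem J3_far {G : ℝ → ℝ} (hG : Measurable G) (hG0 : ∀ v, 0 ≤ G v) {A : ℝ} {n : ℕ}
    (hA : 0 ≤ A) (hGA : ∀ v, G v ≤ A * (1 + |v|) ^ n) {S : ℝ} (hS : 0 ≤ S) (σ : ℝ) :
    ∫ u in (0 : ℝ)..S, (S - u) * G (u - σ) ≤
      S ^ 2 * (A * (1 + S) ^ n) * (1 + |σ|) ^ n := by
  have h1 : ∫ u in (0 : ℝ)..S, (S - u) * G (u - σ) ≤
      ∫ _u in (0 : ℝ)..S, S * (A * ((1 + S) * (1 + |σ|)) ^ n) := by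
    refine intervalIntegral.integral_mono_on hS (J3_ii hG hG0 hA hGA S σ 0 S)
      intervalIntegrable_const fun u hu => ?_
    have h2 : 1 + |u - σ| ≤ (1 + S) * (1 + |σ|) := by
      refine (J2_tri u σ).trans ?_
      have h3 : |u| ≤ S := by
        rw [abs_of_nonneg hu.1]
        exact hu.2
      gcongr
    have h8 : G (u - σ) ≤ A * ((1 + S) * (1 + |σ|)) ^ n := (hGA _).trans (by gcongr)
    exact mul_le_mul (by linarith [hu.1]) h8 (hG0 _) hS
  rw [intervalIntegral.integral_const, smul_eq_mul, sub_zero, mul_pow] at h1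
  refine h1.trans (le_of_eq ?_)
  ring

theorem moll_pow {b : ℝ → ℂ} (hb : Ker b) {κ : ℕ → ℝ} (h : Lev κ) {f : ℝ → ℝ} (hf : Rd f)
    {r : ℕ} (hr : Even r) (N : ℕ) {R : ℝ} (hR : 1 ≤ R) : ∃ C : ℝ, 0 < C ∧
      ∀ l T δ : ℝ, 1 ≤ l → 1 ≤ δ → 2 * δ ≤ T →
        tm (T - δ) (fun u => st κ (aR b f R) l u ^ r) ≤
          (T / (T - δ)) ^ 2 * tm T (fun u => stF κ f l u ^ r) +
            C * ((1 + δ) ^ (4 * r + 1) / T + (1 + T) ^ (4 * r) / δ ^ N) := by
  obtain ⟨C, hC, hst⟩ := stF_bound h hf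
  obtain ⟨K, hK⟩ : ∃ K, K = ∫ v, (1 + |v|) ^ (4 * r + N) * tf b v := ⟨_, rfl⟩
  have hK0 : 0 ≤ K := by
    rw [hK]
    exact integral_nonneg fun v => mul_nonneg (by positivity) (hb.pos v)
  refine ⟨C ^ r * (12 + 2 * K), by positivity, fun l T δ hl hδ hT => ?_⟩
  have hR0 : 0 < R := by linarith
  have hl0 : 0 < l := by linarith
  have hc1 : 1 ≤ R * l := by nlinarith
  have hc : 0 < R * l := by linarith
  have hT0 : 0 < T := by linarith
  obtain ⟨S, hS⟩ : ∃ S, S = T - δ := ⟨_, rfl⟩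
  have hS0 : 0 < S := by linarith
  have hST : S ≤ T := by linarith
  obtain ⟨G, hG⟩ : ∃ G : ℝ → ℝ, G = fun v => stF κ f l v ^ r := ⟨_, rfl⟩
  have hGm : Measurable G := by
    rw [hG]
    exact (stF_meas h hf hl).pow_const r
  have hG0 : ∀ v, 0 ≤ G v := fun v => by
    rw [hG]
    exact hr.pow_nonneg _
  have hA0 : 0 ≤ C ^ r := by positivity
  have hGA : ∀ v, G v ≤ C ^ r * (1 + |v|) ^ (4 * r) := fun v => by
    rw [hG, pow_mul, ← mul_pow]
    dsimp only
    rw [← hr.pow_abs]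
    have := hst l v hl
    gcongr
  have hkm : Measurable fun σ => R * l * tf b (R * l * σ) :=
    (continuous_const.mul ((tf_cont hb.amp).comp (continuous_const.mul continuous_id))).measurable
  -- the product
  have hprod : Integrable (fun p : ℝ × ℝ => (S - p.1) * (G (p.1 - p.2) *
      (R * l * tf b (R * l * p.2)))) ((volume.restrict (Ioc 0 S)).prod volume) := by
    have hfin : IsFiniteMeasure ((volume : Measure ℝ).restrict (Ioc 0 S)) :=
      ⟨by rw [Measure.restrict_apply_univ]; exact measure_Ioc_lt_top⟩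
    have h1 : Integrable (fun p : ℝ × ℝ => S * (C ^ r * (1 + S) ^ (4 * r)) *
        ((1 + |p.2|) ^ (4 * r) * (R * l * tf b (R * l * p.2))))
        ((volume.restrict (Ioc 0 S)).prod volume) :=
      Integrable.mul_prod (integrable_const _) (J2_wint hb (4 * r) hc)
    refine h1.mono' ((measurable_const.sub measurable_fst).mul ((hGm.comp
      (measurable_fst.sub measurable_snd)).mul (hkm.comp measurable_snd))).aestronglyMeasurable ?_
    refine (Measure.quasiMeasurePreserving_fst.ae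
      (ae_restrict_mem (measurableSet_Ioc (a := (0 : ℝ)) (b := S)))).mono fun p hp => ?_
    have hk := mul_nonneg hc.le (hb.pos (R * l * p.2))
    have h2 : |p.1| ≤ S := by
      rw [abs_of_nonneg hp.1.le]
      exact hp.2
    have h3 : G (p.1 - p.2) ≤ C ^ r * ((1 + S) * (1 + |p.2|)) ^ (4 * r) := by
      have h4 : 1 + |p.1 - p.2| ≤ (1 + S) * (1 + |p.2|) := by
        refine (J2_tri p.1 p.2).trans ?_
        gcongr
      exact (hGA _).trans (by gcongr)
    have h5 : |S - p.1| ≤ S := abs_le.2 ⟨by linarith [hp.2], by linarith [hp.1]⟩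
    rw [Real.norm_eq_abs, abs_mul, abs_mul, abs_of_nonneg (hG0 _), abs_of_nonneg hk]
    calc |S - p.1| * (G (p.1 - p.2) * (R * l * tf b (R * l * p.2)))
        ≤ S * (C ^ r * ((1 + S) * (1 + |p.2|)) ^ (4 * r) * (R * l * tf b (R * l * p.2))) :=
          mul_le_mul h5 (mul_le_mul_of_nonneg_right h3 hk) (mul_nonneg (hG0 _) hk) hS0.le
      _ = _ := by
          rw [mul_pow (1 + S)]
          ring
  -- Jensen
  have h1 : ∫ u in (0 : ℝ)..S, (S - u) * st κ (aR b f R) l u ^ r ≤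
      ∫ u in Ioc 0 S, ∫ σ, (S - u) * (G (u - σ) * (R * l * tf b (R * l * σ))) := by
    rw [intervalIntegral.integral_of_le hS0.le]
    have hcont : Continuous fun u => (S - u) * st κ (aR b f R) l u ^ r :=
      (continuous_const.sub continuous_id).mul ((st_cont (amp_aR hb hf hR0) h hl0).pow r)
    refine setIntegral_mono_on (hcont.integrableOn_Ioc) hprod.integral_prod_left
      measurableSet_Ioc fun u hu => ?_
    rw [integral_const_mul]
    refine mul_le_mul_of_nonneg_left ?_ (by linarith [hu.2])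
    rw [hG]
    exact moll_jensen hb h hf hr hR0 hl u
  have h2 : ∫ u in Ioc 0 S, ∫ σ, (S - u) * (G (u - σ) * (R * l * tf b (R * l * σ))) =
      ∫ σ, ∫ u in Ioc 0 S, (S - u) * (G (u - σ) * (R * l * tf b (R * l * σ))) :=
    integral_integral_swap hprod
  obtain ⟨M1, hM1⟩ : ∃ M1, M1 = (∫ v in (0 : ℝ)..T, (T - v) * G v) +
      δ * ((T + δ) * (C ^ r * (1 + δ) ^ (4 * r))) := ⟨_, rfl⟩
  obtain ⟨M2, hM2⟩ : ∃ M2, M2 = S ^ 2 * (C ^ r * (1 + S) ^ (4 * r)) := ⟨_, rfl⟩
  have hM10 : 0 ≤ M1 := by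
    rw [hM1]
    have h3 : 0 ≤ ∫ v in (0 : ℝ)..T, (T - v) * G v :=
      intervalIntegral.integral_nonneg hT0.le fun v hv => mul_nonneg (by linarith [hv.2]) (hG0 v)
    have h4 : 0 ≤ T + δ := by linarith
    have h5 : 0 ≤ δ := by linarith
    have h6 : 0 ≤ 1 + δ := by linarith
    positivity
  have hM20 : 0 ≤ M2 := by
    rw [hM2]
    positivity
  have hδ0 : 0 < δ := by linarith
  have h3 : ∀ σ, ∫ u in (0 : ℝ)..S, (S - u) * G (u - σ) ≤
      M1 + M2 / δ ^ N * (1 + |σ|) ^ (4 * r + N) := by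
    intro σ
    by_cases hσ : |σ| ≤ δ
    · have h4 := J3_near hGm hG0 hA0 hGA hδ hT hσ
      rw [← hM1, ← hS] at h4
      have h5 : 0 ≤ M2 / δ ^ N * (1 + |σ|) ^ (4 * r + N) := by positivity
      linarith
    · have h4 := J3_far hGm hG0 hA0 hGA hS0.le σ
      rw [← hM2] at h4
      have h5 : M2 * (1 + |σ|) ^ (4 * r) ≤ M2 / δ ^ N * (1 + |σ|) ^ (4 * r + N) := by
        rw [div_mul_eq_mul_div, le_div_iff₀ (by positivity), pow_add, mul_assoc]
        have h6 : δ ^ N ≤ (1 + |σ|) ^ N := by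
          have : δ ≤ 1 + |σ| := by linarith
          gcongr
        gcongr
      linarith
  have h4 : ∫ σ, ∫ u in Ioc 0 S, (S - u) * (G (u - σ) * (R * l * tf b (R * l * σ))) ≤
      ∫ σ, (M1 * (R * l * tf b (R * l * σ)) +
        M2 / δ ^ N * ((1 + |σ|) ^ (4 * r + N) * (R * l * tf b (R * l * σ)))) := by
    refine integral_mono hprod.integral_prod_right (Integrable.add ?_ ?_) fun σ => ?_
    · have hKi : Integrable fun σ => R * l * tf b (R * l * σ) := by
        simpa using J2_wint hb 0 hc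
      exact hKi.const_mul M1
    · exact (J2_wint hb (4 * r + N) hc).const_mul _
    have hk := mul_nonneg hc.le (hb.pos (R * l * σ))
    have h5 : ∫ u in Ioc 0 S, (S - u) * (G (u - σ) * (R * l * tf b (R * l * σ))) =
        (∫ u in (0 : ℝ)..S, (S - u) * G (u - σ)) * (R * l * tf b (R * l * σ)) := by
      rw [intervalIntegral.integral_of_le hS0.le, ← integral_mul_const]
      refine integral_congr_ae (Eventually.of_forall fun u => ?_)
      dsimp only
      ring
    show ∫ u in Ioc 0 S, (S - u) * (G (u - σ) * (R * l * tf b (R * l * σ))) ≤ _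
    rw [h5]
    refine (mul_le_mul_of_nonneg_right (h3 σ) hk).trans (le_of_eq ?_)
    ring
  have h5 : ∫ σ, (M1 * (R * l * tf b (R * l * σ)) +
        M2 / δ ^ N * ((1 + |σ|) ^ (4 * r + N) * (R * l * tf b (R * l * σ)))) ≤
      M1 + M2 / δ ^ N * K := by
    have hKi : Integrable fun σ => R * l * tf b (R * l * σ) := by
      simpa using J2_wint hb 0 hc
    rw [integral_add (hKi.const_mul M1) ((J2_wint hb (4 * r + N) hc).const_mul _),
      integral_const_mul M1 (fun σ => R * l * tf b (R * l * σ)),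
      integral_const_mul (M2 / δ ^ N) (fun σ => (1 + |σ|) ^ (4 * r + N) * (R * l * tf b (R * l * σ))),
      J2_one hb hc, mul_one, hK]
    have := J3_mom hb (4 * r + N) hc1
    have h6 : 0 ≤ M2 / δ ^ N := by positivity
    gcongr
  have h6 : ∫ u in (0 : ℝ)..S, (S - u) * st κ (aR b f R) l u ^ r ≤ M1 + M2 / δ ^ N * K := by
    linarith [h1, h2, h4, h5]
  -- the end
  have hST2 : T / 2 ≤ S := by linarith
  have htm : ∫ v in (0 : ℝ)..T, (T - v) * G v = T ^ 2 / 2 * tm T G := by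
    unfold tm
    field_simp
  have hE1 : 2 / S ^ 2 * (δ * ((T + δ) * (C ^ r * (1 + δ) ^ (4 * r)))) ≤
      12 * C ^ r * ((1 + δ) ^ (4 * r + 1) / T) := by
    have h7 : 2 / S ^ 2 * (δ * (T + δ)) ≤ 12 * (1 + δ) / T := by
      rw [div_mul_eq_mul_div, div_le_div_iff₀ (by positivity) hT0]
      have h8 : T ^ 2 ≤ 4 * S ^ 2 := by nlinarith
      have h9 : δ * (T + δ) * T ≤ 3 / 2 * (δ * T ^ 2) := by nlinarith [mul_pos hδ0 hT0]
      nlinarith [mul_le_mul_of_nonneg_left h8 hδ0.le, sq_nonneg S]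
    have h8 : 0 ≤ C ^ r * (1 + δ) ^ (4 * r) := by positivity
    calc 2 / S ^ 2 * (δ * ((T + δ) * (C ^ r * (1 + δ) ^ (4 * r))))
        = 2 / S ^ 2 * (δ * (T + δ)) * (C ^ r * (1 + δ) ^ (4 * r)) := by ring
      _ ≤ 12 * (1 + δ) / T * (C ^ r * (1 + δ) ^ (4 * r)) :=
          mul_le_mul_of_nonneg_right h7 h8
      _ = _ := by
          rw [pow_succ]
          ring
  have hE2 : 2 / S ^ 2 * (M2 / δ ^ N * K) ≤ 2 * K * C ^ r * ((1 + T) ^ (4 * r) / δ ^ N) := by
    have h7 : 2 / S ^ 2 * (M2 / δ ^ N * K) = 2 * K * C ^ r * ((1 + S) ^ (4 * r) / δ ^ N) := by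
      rw [hM2]
      field_simp
    rw [h7]
    gcongr
  have hX : 0 ≤ (1 + δ) ^ (4 * r + 1) / T := by positivity
  have hY : 0 ≤ (1 + T) ^ (4 * r) / δ ^ N := by positivity
  have hfin : tm S (fun u => st κ (aR b f R) l u ^ r) ≤ 2 / S ^ 2 * (M1 + M2 / δ ^ N * K) := by
    unfold tm
    exact mul_le_mul_of_nonneg_left h6 (by positivity)
  have hexp : 2 / S ^ 2 * (M1 + M2 / δ ^ N * K) =
      (T / S) ^ 2 * tm T G + 2 / S ^ 2 * (δ * ((T + δ) * (C ^ r * (1 + δ) ^ (4 * r)))) +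
        2 / S ^ 2 * (M2 / δ ^ N * K) := by
    rw [hM1, htm]
    field_simp
  rw [← hS, ← hG]
  refine hfin.trans ?_
  rw [hexp]
  have hf1 : 12 * C ^ r * ((1 + δ) ^ (4 * r + 1) / T) ≤
      C ^ r * (12 + 2 * K) * ((1 + δ) ^ (4 * r + 1) / T) := by
    refine mul_le_mul_of_nonneg_right ?_ hX
    nlinarith [mul_nonneg hA0 hK0]
  have hf2 : 2 * K * C ^ r * ((1 + T) ^ (4 * r) / δ ^ N) ≤
      C ^ r * (12 + 2 * K) * ((1 + T) ^ (4 * r) / δ ^ N) := by
    refine mul_le_mul_of_nonneg_right ?_ hY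
    nlinarith
  rw [mul_add (C ^ r * (12 + 2 * K))]
  linarith

end SC35
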