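import Pool.Agent.LibSC35.Defs

/-! ROW M1 : the mollified test function. 45 min.
Plan. `f` and all `|y|^n f` are integrable (`hf.dec`, `integrable_one_add_norm`). `ftF f` is smooth
(`Real.contDiff_fourier` or `VectorFourier.contDiff_fourierIntegral` after scaling by `2 π`; or differentiate under the
integral), `ftF f (-t) = conj (ftF f t)`; so `IsAmp (aR b f R)` (support in `R * tsupport b`).
`tf_aR`: `∫ (∫ f u e^(-i t u) du) b (t / R) e^(i t y) dt = ∫ f u (∫ b (t / R) e^(i t (y - u)) dt) du` (Fubini; `f`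
integrable, `b` continuous with compact support), `t = R s`; the inner integral `∫ b s e^(i s v) ds` equals `tf b v`
(`tf_real`, LibGWa/U1.lean). `int_aR`: `∫ tf (aR b f R) = ∫ f` (Fubini, translation and scaling invariance, `hb.one`). -/

open MeasureTheory Set Filter Topology FG33
open scoped ContDiff

namespace SC35

open GWin

theorem rd_int {f : ℝ → ℝ} (hf : Rd f) (n : ℕ) : Integrable fun y => |y| ^ n * f y := by
  obtain ⟨B, hB, hb⟩ := hf.dec (n + 2)
  have h1 : Integrable fun x : ℝ => B * (1 + ‖x‖) ^ (-(2 : ℝ)) :=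
    (integrable_one_add_norm (μ := (volume : Measure ℝ)) (by simp)).const_mul B
  refine h1.mono' ?_ (Eventually.of_forall fun x => ?_)
  · exact ((continuous_abs.pow n).aestronglyMeasurable).mul hf.meas.aestronglyMeasurable
  rw [Real.norm_eq_abs, abs_mul, abs_pow, abs_abs]
  have h2 := abs_nonneg x
  have h3 : |x| ^ n * |f x| ≤ (1 + |x|) ^ n * (B / (1 + |x|) ^ (n + 2)) := by
    gcongr
    · linarith
    · exact hb x
  refine h3.trans (le_of_eq ?_)
  rw [Real.rpow_neg (by positivity), Real.norm_eq_abs]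
  norm_cast
  field_simp
  ring

theorem M1_int {f : ℝ → ℝ} (hf : Rd f) : Integrable f := by
  simpa using rd_int hf 0

theorem M1_fourier (f : ℝ → ℝ) :
    ftF f = fun t => FourierTransform.fourier (fun u : ℝ => (f u : ℂ)) (t * (2 * Real.pi)⁻¹) := by
  ext t
  unfold ftF
  rw [Real.fourier_real_eq_integral_exp_smul]
  refine integral_congr_ae (Eventually.of_forall fun u => ?_)
  dsimp only
  rw [smul_eq_mul, mul_comm]
  congr 2
  push_cast
  have : (Real.pi : ℂ) ≠ 0 := by exact_mod_cast Real.pi_ne_zero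
  field_simp

theorem ftF_smooth {f : ℝ → ℝ} (hf : Rd f) : ContDiff ℝ ∞ (ftF f) := by
  rw [M1_fourier]
  have h1 : ContDiff ℝ ∞ (FourierTransform.fourier (fun u : ℝ => (f u : ℂ))) := by
    refine Real.contDiff_fourier fun n _ => ?_
    refine (rd_int hf n).norm.congr (Eventually.of_forall fun u => ?_)
    simp
  exact h1.comp (by fun_prop)

theorem M1_herm (f : ℝ → ℝ) (t : ℝ) : ftF f (-t) = (starRingEnd ℂ) (ftF f t) := by
  unfold ftF
  rw [← integral_conj]
  refine integral_congr_ae (Eventually.of_forall fun u => ?_)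
  dsimp only
  rw [map_mul, ← Complex.exp_conj]
  simp

theorem M1_supp {b : ℝ → ℂ} (hb : IsAmp b) {R : ℝ} (hR : 0 < R) :
    HasCompactSupport fun t : ℝ => b (t / R) := by
  have h3 := hb.supp.comp_homeomorph (Homeomorph.mulRight₀ R⁻¹ (inv_ne_zero hR.ne'))
  simpa [div_eq_mul_inv, Function.comp_def] using h3

theorem amp_aR {b : ℝ → ℂ} (hb : Ker b) {f : ℝ → ℝ} (hf : Rd f) {R : ℝ} (hR : 0 < R) :
    IsAmp (aR b f R) := by
  refine ⟨?_, ?_, fun t => ?_⟩
  · exact (ftF_smooth hf).mul (hb.amp.smooth.comp (contDiff_id.div_const R))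
  · exact (M1_supp hb.amp hR).mul_left
  · unfold aR
    rw [M1_herm, map_mul, neg_div, hb.amp.herm]

theorem M1_inner {b : ℝ → ℂ} (hb : IsAmp b) {R : ℝ} (hR : 0 < R) (v : ℝ) :
    ∫ t, b (t / R) * Complex.exp (Complex.I * (t * v : ℝ)) = ((R * tf b (R * v) : ℝ) : ℂ) := by
  have h1 : (fun t : ℝ => b (t / R) * Complex.exp (Complex.I * (t * v : ℝ)))
      = fun t : ℝ => (fun s : ℝ => b s * Complex.exp (Complex.I * (s * (R * v) : ℝ))) (t / R) := by
    ext t
    dsimp only
    congr 4
    have := hR.ne'
    field_simp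
  rw [h1, Measure.integral_comp_div (fun s : ℝ => b s * Complex.exp (Complex.I * (s * (R * v) : ℝ))) R,
    tf_real hb, abs_of_pos hR, Complex.real_smul]
  push_cast
  ring

theorem tf_aR {b : ℝ → ℂ} (hb : Ker b) {f : ℝ → ℝ} (hf : Rd f) {R : ℝ} (hR : 0 < R)
    (y : ℝ) : tf (aR b f R) y = ∫ u, f u * (R * tf b (R * (y - u))) := by
  have e1 : ∫ t, aR b f R t * Complex.exp (Complex.I * (t * y : ℝ))
      = ∫ u, (f u : ℂ) * ((R * tf b (R * (y - u)) : ℝ) : ℂ) := by
    have e2 : ∀ t : ℝ, aR b f R t * Complex.exp (Complex.I * (t * y : ℝ))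
        = ∫ u, (f u : ℂ) * (b (t / R) * Complex.exp (Complex.I * (t * (y - u) : ℝ))) := by
      intro t
      unfold aR ftF
      rw [mul_assoc, ← integral_mul_const]
      refine integral_congr_ae (Eventually.of_forall fun u => ?_)
      dsimp only
      have e3 : Complex.exp (Complex.I * (t * (y - u) : ℝ))
          = Complex.exp (-(Complex.I * (t * u : ℝ))) * Complex.exp (Complex.I * (t * y : ℝ)) := by
        rw [← Complex.exp_add]
        congr 1
        push_cast
        ring
      rw [e3]
      ring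
    simp_rw [e2]
    rw [integral_integral_swap]
    · refine integral_congr_ae (Eventually.of_forall fun u => ?_)
      dsimp only
      rw [integral_const_mul, M1_inner hb.amp hR]
    · have i1 : Integrable fun t : ℝ => b (t / R) := by
        refine Continuous.integrable_of_hasCompactSupport ?_ (M1_supp hb.amp hR)
        exact hb.amp.smooth.continuous.comp (continuous_id.div_const R)
      have i2 : Integrable fun u : ℝ => (f u : ℂ) := (M1_int hf).ofReal
      have i3 := i1.mul_prod i2
      refine (i3.norm.mono' ?_ (Eventually.of_forall fun p => ?_))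
      · have c1 : AEStronglyMeasurable (fun p : ℝ × ℝ => (f p.2 : ℂ))
            ((volume : Measure ℝ).prod volume) :=
          (Complex.measurable_ofReal.comp (hf.meas.comp measurable_snd)).aestronglyMeasurable
        have c2 : Continuous fun p : ℝ × ℝ =>
            b (p.1 / R) * Complex.exp (Complex.I * (p.1 * (y - p.2) : ℝ)) := by
          have := hb.amp.smooth.continuous
          fun_prop
        exact c1.mul c2.aestronglyMeasurable
      · rw [Function.uncurry]
        simp only [norm_mul]
        have : ‖Complex.exp (Complex.I * (p.1 * (y - p.2) : ℝ))‖ = 1 := by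
          rw [mul_comm]
          exact Complex.norm_exp_ofReal_mul_I _
        rw [this]
        simp [mul_comm]
  unfold tf
  rw [e1]
  have e4 : (fun u : ℝ => (f u : ℂ) * ((R * tf b (R * (y - u)) : ℝ) : ℂ))
      = fun u : ℝ => ((f u * (R * tf b (R * (y - u))) : ℝ) : ℂ) := by
    ext u
    push_cast
    rfl
  rw [e4, integral_complex_ofReal, Complex.ofReal_re]
  rfl

theorem int_aR {b : ℝ → ℂ} (hb : Ker b) {f : ℝ → ℝ} (hf : Rd f) {R : ℝ} (hR : 0 < R) :
    ∫ y, tf (aR b f R) y = ∫ y, f y := by
  have h1 : Integrable fun v : ℝ => R * tf b (R * v) :=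
    ((tf_int hb.amp).comp_mul_left' hR.ne').const_mul R
  have h2 : ∫ v : ℝ, R * tf b (R * v) = 1 := by
    rw [integral_const_mul, Measure.integral_comp_mul_left (fun v => tf b v) R, hb.one,
      abs_of_pos (inv_pos.2 hR), smul_eq_mul, mul_one, mul_inv_cancel₀ hR.ne']
  have h3 := integral_convolution (ContinuousLinearMap.mul ℝ ℝ) (M1_int hf) h1
    (μ := (volume : Measure ℝ)) (ν := (volume : Measure ℝ))
  rw [h2] at h3
  have h4 : ∫ y, tf (aR b f R) y
      = ∫ y, convolution f (fun v : ℝ => R * tf b (R * v)) (ContinuousLinearMap.mul ℝ ℝ) volume y := by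
    refine integral_congr_ae (Eventually.of_forall fun y => ?_)
    refine (tf_aR hb hf hR y).trans ?_
    rfl
  rw [h4, h3]
  simp

end SC35
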