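import Pool.Agent.LibSC35.Defs

/-! ROW N1 : sharp counting has infinite limit variance. 40 min.
Plan. `f = indicator (Ico 0 1) 1`: `ftF f ξ = ∫_0^1 e^(-i ξ u) du`, `‖ftF f ξ‖² = 4 sin² (ξ / 2) / ξ²` for `ξ ≠ 0`
(`integral_exp_mul_complex`). So `|ξ| ‖ftF f ξ‖² / (2 π²) = 2 sin² (ξ / 2) / (π² |ξ|) ≥ 1 / (π² |ξ|)` on the intervals
`[2 π n + π / 2, 2 π n + 3 π / 2]`, of length `π`, where `|ξ| ≤ 2 π (n + 1)`: the integral over the disjoint union
(`lintegral_iUnion`) is at least `∑ 1 / (2 π² (n + 1)) = ∞` (`Real.not_summable_one_div_natCast`;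
`ENNReal.tsum_eq_top_of...` via `ENNReal.ofReal_tsum_of_nonneg` / `summable_of...`). -/

open MeasureTheory Set Filter Topology FG33
open scoped ContDiff

namespace SC35

theorem rd_ind : Rd (indicator (Ico (0 : ℝ) 1) 1) := by
  refine ⟨measurable_one.indicator measurableSet_Ico, fun N => ⟨2 ^ N, by positivity, fun y => ?_⟩⟩
  by_cases hy : y ∈ Ico (0 : ℝ) 1
  · rw [indicator_of_mem hy]
    have h0 : |y| = y := abs_of_nonneg hy.1
    have h1 : (1 + |y|) ^ N ≤ 2 ^ N := by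
      apply pow_le_pow_left₀ (by positivity)
      rw [h0]
      linarith [hy.2]
    have h2 : 0 < (1 + |y|) ^ N := by positivity
    rw [le_div_iff₀ h2]
    simpa using h1
  · rw [indicator_of_notMem hy]
    simp only [abs_zero]
    positivity

theorem ftF_ind (ξ : ℝ) (h : ξ ≠ 0) : ftF (indicator (Ico (0 : ℝ) 1) 1) ξ =
    (Complex.exp (-(Complex.I * ξ)) - 1) / (-(Complex.I * ξ)) := by
  unfold ftF
  have e1 : (fun u : ℝ => ((indicator (Ico (0 : ℝ) 1) (1 : ℝ → ℝ) u : ℝ) : ℂ) *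
      Complex.exp (-(Complex.I * (ξ * u : ℝ)))) =
      indicator (Ico (0 : ℝ) 1) (fun u : ℝ => Complex.exp (-(Complex.I * ξ) * u)) := by
    funext u
    by_cases hu : u ∈ Ico (0 : ℝ) 1
    · rw [indicator_of_mem hu, indicator_of_mem hu]
      simp only [Pi.one_apply, Complex.ofReal_one, one_mul]
      congr 1
      push_cast
      ring
    · rw [indicator_of_notMem hu, indicator_of_notMem hu]
      simp
  rw [e1, integral_indicator measurableSet_Ico, integral_Ico_eq_integral_Ioc,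
    ← intervalIntegral.integral_of_le zero_le_one, integral_exp_mul_complex]
  · simp
  · simp [h]

theorem norm_ftF_ind (ξ : ℝ) (h : ξ ≠ 0) : ‖ftF (indicator (Ico (0 : ℝ) 1) 1) ξ‖ ^ 2 =
    (2 - 2 * Real.cos ξ) / ξ ^ 2 := by
  rw [ftF_ind ξ h, norm_div, div_pow]
  have h1 : ‖(-(Complex.I * ξ) : ℂ)‖ ^ 2 = ξ ^ 2 := by
    simp
  have h2 : ‖Complex.exp (-(Complex.I * ξ)) - 1‖ ^ 2 = 2 - 2 * Real.cos ξ := by
    have e : Complex.exp (-(Complex.I * ξ)) = (Real.cos ξ : ℂ) - (Real.sin ξ : ℂ) * Complex.I := by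
      rw [show (-(Complex.I * ξ) : ℂ) = ((-ξ : ℝ) : ℂ) * Complex.I by push_cast; ring, Complex.exp_mul_I,
        ← Complex.ofReal_cos, ← Complex.ofReal_sin, Real.cos_neg, Real.sin_neg]
      push_cast
      ring
    rw [e, ← Complex.normSq_eq_norm_sq, Complex.normSq_apply]
    simp only [Complex.sub_re, Complex.sub_im, Complex.mul_re, Complex.mul_im, Complex.ofReal_re, Complex.ofReal_im,
      Complex.I_re, Complex.I_im, Complex.one_re, Complex.one_im]
    nlinarith [Real.sin_sq_add_cos_sq ξ]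
  rw [h1, h2]

/-- The intervals where the cosine is negative. -/
def Jn (n : ℕ) : Set ℝ := Icc (2 * Real.pi * n + Real.pi / 2) (2 * Real.pi * n + 3 * Real.pi / 2)

theorem Jn_meas (n : ℕ) : MeasurableSet (Jn n) := measurableSet_Icc

theorem Jn_disj : Pairwise (Function.onFun Disjoint Jn) := by
  have key : ∀ m n : ℕ, m < n → Disjoint (Jn m) (Jn n) := by
    intro m n hmn
    rw [Set.disjoint_left]
    intro x hx hy
    have h1 := hx.2
    have h2 := hy.1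
    have h3 : (m : ℝ) + 1 ≤ n := by exact_mod_cast hmn
    have h4 : 2 * Real.pi * ((m : ℝ) + 1) ≤ 2 * Real.pi * n :=
      mul_le_mul_of_nonneg_left h3 (by positivity)
    nlinarith [Real.pi_pos]
  intro m n hmn
  rcases lt_or_gt_of_ne hmn with h | h
  · exact key m n h
  · exact (key n m h).symm

theorem Jn_ge (n : ℕ) (ξ : ℝ) (h : ξ ∈ Jn n) :
    1 / (2 * Real.pi ^ 3 * ((n : ℝ) + 1)) ≤
      |ξ| * ‖ftF (indicator (Ico (0 : ℝ) 1) 1) ξ‖ ^ 2 / (2 * Real.pi ^ 2) := by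
  have hp := Real.pi_pos
  have hn : (0 : ℝ) ≤ n := Nat.cast_nonneg n
  have h1 := h.1
  have h2 := h.2
  have hx : 0 < ξ := by
    have : 0 ≤ 2 * Real.pi * (n : ℝ) := by positivity
    linarith
  have hc : Real.cos ξ ≤ 0 := by
    have e : Real.cos ξ = Real.cos (ξ - n * (2 * Real.pi)) := (Real.cos_sub_nat_mul_two_pi ξ n).symm
    rw [e]
    apply Real.cos_nonpos_of_pi_div_two_le_of_le
    · linarith
    · linarith
  rw [norm_ftF_ind ξ hx.ne', abs_of_pos hx]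
  have h3 : 1 / (Real.pi ^ 2 * ξ) ≤ ξ * ((2 - 2 * Real.cos ξ) / ξ ^ 2) / (2 * Real.pi ^ 2) := by
    have e : ξ * ((2 - 2 * Real.cos ξ) / ξ ^ 2) / (2 * Real.pi ^ 2) = (1 - Real.cos ξ) / (Real.pi ^ 2 * ξ) := by
      field_simp
    rw [e]
    apply div_le_div_of_nonneg_right
    · linarith
    · positivity
  refine le_trans ?_ h3
  apply one_div_le_one_div_of_le
  · positivity
  · have h4 : ξ ≤ 2 * Real.pi * ((n : ℝ) + 1) := by linarith
    have h5 : Real.pi ^ 2 * ξ ≤ Real.pi ^ 2 * (2 * Real.pi * ((n : ℝ) + 1)) :=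
      mul_le_mul_of_nonneg_left h4 (by positivity)
    calc Real.pi ^ 2 * ξ ≤ Real.pi ^ 2 * (2 * Real.pi * ((n : ℝ) + 1)) := h5
      _ = 2 * Real.pi ^ 3 * ((n : ℝ) + 1) := by ring

theorem lint_Jn (n : ℕ) : ENNReal.ofReal (1 / (2 * Real.pi ^ 2 * ((n : ℝ) + 1))) ≤
    ∫⁻ ξ in Jn n, ENNReal.ofReal (|ξ| * ‖ftF (indicator (Ico (0 : ℝ) 1) 1) ξ‖ ^ 2 / (2 * Real.pi ^ 2)) := by
  have hp := Real.pi_pos
  have h1 : ∫⁻ _ξ in Jn n, ENNReal.ofReal (1 / (2 * Real.pi ^ 3 * ((n : ℝ) + 1))) ≤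
      ∫⁻ ξ in Jn n, ENNReal.ofReal (|ξ| * ‖ftF (indicator (Ico (0 : ℝ) 1) 1) ξ‖ ^ 2 / (2 * Real.pi ^ 2)) := by
    apply setLIntegral_mono' (Jn_meas n)
    intro ξ hξ
    exact ENNReal.ofReal_le_ofReal (Jn_ge n ξ hξ)
  refine le_trans (le_of_eq ?_) h1
  rw [setLIntegral_const]
  have h2 : volume (Jn n) = ENNReal.ofReal Real.pi := by
    unfold Jn
    rw [Real.volume_Icc]
    congr 1
    ring
  rw [h2, ← ENNReal.ofReal_mul (by positivity)]
  congr 1
  field_simp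

theorem vF_ind : vF (indicator (Ico (0 : ℝ) 1) 1) = ⊤ := by
  have hp := Real.pi_pos
  unfold vF
  rw [eq_top_iff]
  have h1 : ∫⁻ ξ in ⋃ n, Jn n, ENNReal.ofReal (|ξ| * ‖ftF (indicator (Ico (0 : ℝ) 1) 1) ξ‖ ^ 2 / (2 * Real.pi ^ 2)) ≤
      ∫⁻ ξ, ENNReal.ofReal (|ξ| * ‖ftF (indicator (Ico (0 : ℝ) 1) 1) ξ‖ ^ 2 / (2 * Real.pi ^ 2)) :=
    setLIntegral_le_lintegral _ _
  refine le_trans ?_ h1
  rw [lintegral_iUnion Jn_meas Jn_disj]
  have h2 : ∑' n : ℕ, ENNReal.ofReal (1 / (2 * Real.pi ^ 2 * ((n : ℝ) + 1))) = ⊤ := by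
    by_contra hne
    have h3 := ENNReal.summable_toReal hne
    have h4 : Summable (fun n : ℕ => 1 / (2 * Real.pi ^ 2 * ((n : ℝ) + 1))) := by
      refine h3.congr fun n => ?_
      rw [ENNReal.toReal_ofReal (by positivity)]
    have h5 : Summable (fun n : ℕ => 1 / ((n : ℝ) + 1)) := by
      have := h4.mul_left (2 * Real.pi ^ 2)
      refine this.congr fun n => ?_
      field_simp
    have h6 : Summable (fun n : ℕ => 1 / (((n + 1 : ℕ) : ℝ))) := by
      refine h5.congr fun n => ?_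
      push_cast
      rfl
    exact Real.not_summable_one_div_natCast ((summable_nat_add_iff 1).1 h6)
  rw [← h2]
  exact ENNReal.tsum_le_tsum lint_Jn

end SC35
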