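import Pool.Agent.LibSC35.J3
import Pool.Agent.LibSC35.V1
import Pool.Agent.LibSC35.N1
import Pool.Agent.LibSC35.K1

/-! The lower bound for arbitrary test functions. -/

open MeasureTheory Set Filter Topology FG33
open scoped ContDiff

namespace SC35

open GWin EM73

theorem tm_nn {T : ℝ} (hT : 0 ≤ T) {f : ℝ → ℝ} (hf : ∀ u, 0 ≤ f u) : 0 ≤ tm T f := by
  unfold tm
  refine mul_nonneg (by positivity) (intervalIntegral.integral_nonneg hT fun u hu => ?_)
  exact mul_nonneg (by linarith [hu.2]) (hf u)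

theorem lag_tendsto (θ : ℝ) : Tendsto (fun S : ℝ => S + S ^ θ) atTop atTop := by
  refine tendsto_atTop_mono' _ ?_ tendsto_id
  filter_upwards [eventually_ge_atTop 0] with S hS
  have : 0 ≤ S ^ θ := Real.rpow_nonneg hS θ
  simp only [id]
  linarith

theorem lag_le {θ : ℝ} (h1 : θ ≤ 1) {S : ℝ} (hS : 1 ≤ S) : S ^ θ ≤ S := by
  calc S ^ θ ≤ S ^ (1 : ℝ) := Real.rpow_le_rpow_of_exponent_le hS h1
    _ = S := Real.rpow_one S

theorem lag_log {θ : ℝ} (h1 : θ ≤ 1) {L : ℝ → ℝ}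
    (hL' : Tendsto (fun T => L T / Real.log T) atTop (𝓝 0)) :
    Tendsto (fun S => L (S + S ^ θ) / Real.log S) atTop (𝓝 0) := by
  have h2 := (hL'.comp (lag_tendsto θ)).norm.mul_const 2
  simp only [norm_zero, zero_mul] at h2
  refine squeeze_zero_norm' ?_ h2
  filter_upwards [eventually_ge_atTop 2] with S hS
  have hS0 : 0 < S := by linarith
  have h3 : S ^ θ ≤ S := lag_le h1 (by linarith)
  have h4 : 0 < S ^ θ := Real.rpow_pos_of_pos hS0 θ
  have h5 : 0 < Real.log S := Real.log_pos (by linarith)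
  have h6 : 0 < Real.log (S + S ^ θ) := Real.log_pos (by linarith)
  have h7 : Real.log (S + S ^ θ) ≤ 2 * Real.log S := by
    have h8 : S + S ^ θ ≤ S ^ 2 := by nlinarith
    calc Real.log (S + S ^ θ) ≤ Real.log (S ^ 2) := Real.log_le_log (by linarith) h8
      _ = 2 * Real.log S := by rw [Real.log_pow]; norm_num
  simp only [Function.comp, norm_div, Real.norm_eq_abs]
  rw [abs_of_pos h5, abs_of_pos h6, div_mul_eq_mul_div, div_le_div_iff₀ h5 h6]
  have := abs_nonneg (L (S + S ^ θ))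
  nlinarith

theorem err_tendsto (r : ℕ) {θ : ℝ} (hθ : θ = 1 / (4 * r + 2)) (C : ℝ) :
    Tendsto (fun S : ℝ => C * ((1 + S ^ θ) ^ (4 * r + 1) / (S + S ^ θ) +
      (1 + (S + S ^ θ)) ^ (4 * r) / (S ^ θ) ^ ((4 * r + 1) * (4 * r + 2)))) atTop (𝓝 0) := by
  have hr : (0 : ℝ) < 4 * r + 2 := by positivity
  have hθ0 : 0 < θ := by rw [hθ]; positivity
  have hθ1 : θ ≤ 1 := by
    rw [hθ, div_le_one hr]
    have : (0 : ℝ) ≤ r := by positivity
    linarith
  have h1 : Tendsto (fun S : ℝ => 2 ^ (4 * r + 1) * S ^ (-θ)) atTop (𝓝 0) := by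
    have := (tendsto_rpow_neg_atTop hθ0).const_mul ((2 : ℝ) ^ (4 * r + 1))
    simpa using this
  have h2 : Tendsto (fun S : ℝ => 3 ^ (4 * r) * S⁻¹) atTop (𝓝 0) := by
    have := tendsto_inv_atTop_zero.const_mul ((3 : ℝ) ^ (4 * r))
    simpa using this
  have h3 := (h1.add h2).const_mul |C|
  rw [add_zero, mul_zero] at h3
  refine squeeze_zero_norm' ?_ h3
  filter_upwards [eventually_ge_atTop 1] with S hS
  have hS0 : 0 < S := by linarith
  have h4 : S ^ θ ≤ S := lag_le hθ1 hS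
  have h5 : 1 ≤ S ^ θ := Real.one_le_rpow hS hθ0.le
  rw [Real.norm_eq_abs, abs_mul]
  refine mul_le_mul_of_nonneg_left ?_ (abs_nonneg C)
  rw [abs_of_nonneg (by positivity)]
  have h6 : (S ^ θ) ^ (4 * r + 1) = S * S ^ (-θ) := by
    rw [← Real.rpow_natCast, ← Real.rpow_mul hS0.le]
    nth_rewrite 2 [← Real.rpow_one S]
    rw [← Real.rpow_add hS0]
    congr 1
    rw [hθ]
    push_cast
    field_simp
    ring
  have h7 : (S ^ θ) ^ ((4 * r + 1) * (4 * r + 2)) = S ^ (4 * r + 1) := by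
    rw [← Real.rpow_natCast, ← Real.rpow_mul hS0.le, ← Real.rpow_natCast]
    congr 1
    rw [hθ]
    push_cast
    field_simp
  refine add_le_add ?_ ?_
  · rw [div_le_iff₀ (by positivity)]
    calc (1 + S ^ θ) ^ (4 * r + 1) ≤ (2 * S ^ θ) ^ (4 * r + 1) := by gcongr; linarith
      _ = 2 ^ (4 * r + 1) * S ^ (-θ) * S := by rw [mul_pow, h6]; ring
      _ ≤ 2 ^ (4 * r + 1) * S ^ (-θ) * (S + S ^ θ) := by gcongr; linarith
  · rw [h7, div_le_iff₀ (by positivity)]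
    calc (1 + (S + S ^ θ)) ^ (4 * r) ≤ (3 * S) ^ (4 * r) := by gcongr; linarith
      _ = 3 ^ (4 * r) * S⁻¹ * S ^ (4 * r + 1) := by rw [mul_pow, pow_succ]; field_simp

theorem ratio_tendsto {θ : ℝ} (h1 : θ < 1) :
    Tendsto (fun S : ℝ => ((S + S ^ θ) / S) ^ 2) atTop (𝓝 1) := by
  have h2 : Tendsto (fun S : ℝ => 1 + S ^ (-(1 - θ))) atTop (𝓝 (1 + 0)) :=
    (tendsto_rpow_neg_atTop (by linarith)).const_add 1
  have h3 := h2.pow 2
  rw [add_zero, one_pow] at h3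
  refine h3.congr' ?_
  filter_upwards [eventually_gt_atTop 0] with S hS
  congr 1
  rw [add_div, div_self hS.ne', neg_sub, Real.rpow_sub hS, Real.rpow_one]

theorem transfer {b : ℝ → ℂ} (hb : Ker b) {lev : ℕ → ℝ} (hl : Lev lev) {f : ℝ → ℝ} (hf : Rd f)
    {R : ℝ} (hR : 1 ≤ R) {r : ℕ} (hr : Even r) {M : ℝ}
    (hE : ∀ L : ℝ → ℝ, Tendsto L atTop atTop → Tendsto (fun T => L T / Real.log T) atTop (𝓝 0) →
      ∀ ε : ℝ, 0 < ε → ∀ᶠ T in atTop, M - ε ≤ tm T fun u => st lev (aR b f R) (L T) u ^ r)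
    {L : ℝ → ℝ} (hL : Tendsto L atTop atTop)
    (hL' : Tendsto (fun T => L T / Real.log T) atTop (𝓝 0)) {c : ℝ} (hc : c < M) :
    ∀ᶠ T in atTop, c ≤ tm T fun u => stF lev f (L T) u ^ r := by
  rcases le_or_gt c 0 with hc0 | hc0
  · filter_upwards [eventually_ge_atTop 0] with T hT
    exact hc0.trans (tm_nn hT fun u => hr.pow_nonneg _)
  obtain ⟨θ, hθ⟩ : ∃ θ : ℝ, θ = 1 / (4 * r + 2) := ⟨_, rfl⟩
  have hr' : (0 : ℝ) < 4 * r + 2 := by positivity
  have hθ0 : 0 < θ := by rw [hθ]; positivity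
  have hθ1 : θ < 1 := by
    rw [hθ, div_lt_one hr']
    have : (0 : ℝ) ≤ r := by positivity
    linarith
  obtain ⟨C, hC, hm⟩ := moll_pow hb hl hf hr ((4 * r + 1) * (4 * r + 2)) hR
  have e1 := hE (fun S => L (S + S ^ θ)) (hL.comp (lag_tendsto θ)) (lag_log hθ1.le hL')
    ((M - c) / 2) (by linarith)
  have e2 : ∀ᶠ S : ℝ in atTop, ((S + S ^ θ) / S) ^ 2 * c +
      C * ((1 + S ^ θ) ^ (4 * r + 1) / (S + S ^ θ) +
        (1 + (S + S ^ θ)) ^ (4 * r) / (S ^ θ) ^ ((4 * r + 1) * (4 * r + 2))) < (M + c) / 2 := by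
    have h1 := ((ratio_tendsto hθ1).mul_const c).add (err_tendsto r hθ C)
    rw [one_mul, add_zero] at h1
    exact h1.eventually_lt_const (by linarith)
  have e3 : ∀ᶠ S : ℝ in atTop, 1 ≤ L (S + S ^ θ) :=
    (hL.comp (lag_tendsto θ)).eventually_ge_atTop 1
  obtain ⟨S₀, hS₀⟩ := eventually_atTop.1 ((e1.and e2).and (e3.and (eventually_ge_atTop (1 : ℝ))))
  filter_upwards [eventually_ge_atTop (S₀ + S₀ ^ θ), eventually_ge_atTop S₀,
    eventually_ge_atTop 1] with T hT1 hT2 hT3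
  have hS1 : 1 ≤ S₀ := (hS₀ S₀ le_rfl).2.2
  -- the point `S` with `S + S ^ θ = T`
  have h1 : ContinuousOn (fun S : ℝ => S + S ^ θ) (Icc S₀ T) := by
    refine (continuousOn_id.add ?_)
    exact continuousOn_id.rpow_const fun x hx => Or.inr hθ0.le
  have h2 := intermediate_value_Icc hT2 h1
  have h3 : T ∈ Icc (S₀ + S₀ ^ θ) (T + T ^ θ) :=
    ⟨hT1, by have := Real.rpow_nonneg (by linarith : 0 ≤ T) θ; linarith⟩
  obtain ⟨S, hS, hST⟩ := h2 h3
  obtain ⟨⟨g1, g2⟩, g3, g4⟩ := hS₀ S hS.1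
  have hST' : S + S ^ θ = T := hST
  simp only [hST'] at g1 g2 g3
  have g5 : 1 ≤ S ^ θ := Real.one_le_rpow g4 hθ0.le
  have g6 : S ^ θ ≤ S := lag_le hθ1.le g4
  have g7 := hm (L T) T (S ^ θ) g3 g5 (by linarith)
  rw [show T - S ^ θ = S by linarith] at g7
  by_contra hx
  rw [not_le] at hx
  have g8 : (T / S) ^ 2 * tm T (fun u => stF lev f (L T) u ^ r) ≤ (T / S) ^ 2 * c :=
    mul_le_mul_of_nonneg_left hx.le (by positivity)
  linarith

end SC35
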